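import Pool.Agent.Helper106.VN.Stmts

/-!
Task A1 of MP_81bbc5_al: isomorphism of balls and words (`A_ball`).
-/

set_option autoImplicit false

namespace Pool.Agent.Helper106.VN

open Filter

namespace TA1

/-- value of a list of letters -/
def ev {k : ℕ} {G : Type} [Group G] (S : Fin k → G) (l : List (Fin k × Bool)) : G :=
  (l.map fun p => cond p.2 (S p.1) (S p.1)⁻¹).prod

theorem ev_mk {k : ℕ} {G : Type} [Group G] (S : Fin k → G) (l : List (Fin k × Bool)) :
    FreeGroup.lift S (FreeGroup.mk l) = ev S l := FreeGroup.lift_mk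

theorem ev_append {k : ℕ} {G : Type} [Group G] (S : Fin k → G) (l l' : List (Fin k × Bool)) :
    ev S (l ++ l') = ev S l * ev S l' := by
  simp [ev]

theorem ev_invRev {k : ℕ} {G : Type} [Group G] (S : Fin k → G) (l : List (Fin k × Bool)) :
    ev S (FreeGroup.invRev l) = (ev S l)⁻¹ := by
  rw [← ev_mk, ← FreeGroup.inv_mk, map_inv, ev_mk]

theorem ev_single_true {k : ℕ} {G : Type} [Group G] (S : Fin k → G) (i : Fin k) :
    ev S [(i, true)] = S i := by
  simp [ev]

theorem ev_single_false {k : ℕ} {G : Type} [Group G] (S : Fin k → G) (i : Fin k) :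
    ev S [(i, false)] = (S i)⁻¹ := by
  simp [ev]

theorem mem_ball {k : ℕ} {G : Type} [Group G] (S : Fin k → G) (R : ℕ)
    (l : List (Fin k × Bool)) (h : l.length ≤ R) : ev S l ∈ ball S R := ⟨l, h, rfl⟩

theorem one_mem_ball {k : ℕ} {G : Type} [Group G] (S : Fin k → G) (R : ℕ) :
    (1 : G) ∈ ball S R := ⟨[], Nat.zero_le _, rfl⟩

/-- an isomorphism of balls maps the end of a path to the end of the path with the same labels. -/
theorem iso_ev {k : ℕ} {G H : Type} [Group G] [Group H] (S : Fin k → G) (T : Fin k → H) (R : ℕ)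
    (f : ball S R ≃ ball T R)
    (hf : ∀ (g g' : ball S R) (i : Fin k),
      (g' : G) = (g : G) * S i ↔ (f g' : H) = (f g : H) * T i)
    (l : List (Fin k × Bool)) :
    ∀ h : l.length ≤ R,
      (f ⟨ev S l, mem_ball S R l h⟩ : H) = (f ⟨1, one_mem_ball S R⟩ : H) * ev T l := by
  induction l using List.reverseRecOn with
  | nil =>
    intro h
    rw [show ev T [] = 1 from rfl, mul_one]
    rfl
  | append_singleton l p ih =>
    intro h
    have hl : l.length ≤ R := by
      rw [List.length_append] at h
      omega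
    have h1 := ih hl
    rcases p with ⟨i, b⟩
    cases b
    · have h2 := (hf ⟨ev S (l ++ [(i, false)]), mem_ball S R _ h⟩ ⟨ev S l, mem_ball S R l hl⟩ i).1
        (by
          show ev S l = ev S (l ++ [(i, false)]) * S i
          rw [ev_append, ev_single_false, inv_mul_cancel_right])
      rw [ev_append T, ev_single_false T, ← mul_assoc, ← h1, h2, mul_inv_cancel_right]
    · have h2 := (hf ⟨ev S l, mem_ball S R l hl⟩ ⟨ev S (l ++ [(i, true)]), mem_ball S R _ h⟩ i).1
        (by
          show ev S (l ++ [(i, true)]) = ev S l * S i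
          rw [ev_append, ev_single_true])
      rw [h2, ev_append T, ev_single_true T, ← mul_assoc, ← h1]

theorem ballIso_word {k : ℕ} {G H : Type} [Group G] [Group H] (S : Fin k → G) (T : Fin k → H)
    (l : List (Fin k × Bool)) (h : BallIso S T l.length) : ev S l = 1 ↔ ev T l = 1 := by
  obtain ⟨f, hf⟩ := h
  have h1 := iso_ev S T l.length f hf l le_rfl
  constructor
  · intro h2
    have h3 : (⟨ev S l, mem_ball S l.length l le_rfl⟩ : ball S l.length) =
        ⟨1, one_mem_ball S l.length⟩ := Subtype.ext h2
    rw [h3] at h1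
    exact left_eq_mul.1 h1
  · intro h2
    rw [h2, mul_one] at h1
    have h3 := f.injective (Subtype.ext h1)
    exact congrArg Subtype.val h3

theorem word_ballIso {k : ℕ} {G H : Type} [Group G] [Group H] (S : Fin k → G) (T : Fin k → H)
    (R : ℕ) (h : ∀ l : List (Fin k × Bool), l.length ≤ 2 * R + 1 → (ev S l = 1 ↔ ev T l = 1)) :
    BallIso S T R := by
  classical
  have key : ∀ l l' : List (Fin k × Bool), l.length + l'.length ≤ 2 * R + 1 →
      (ev S l = ev S l' ↔ ev T l = ev T l') := by
    intro l l' hl
    have h1 := h (l ++ FreeGroup.invRev l') (by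
      rw [List.length_append, FreeGroup.invRev_length]
      exact hl)
    rw [ev_append, ev_append, ev_invRev, ev_invRev, mul_inv_eq_one, mul_inv_eq_one] at h1
    exact h1
  choose a ha1 ha2 using fun g : ball S R => g.2
  have ha2' : ∀ g : ball S R, ev S (a g) = g := ha2
  let F : ball S R → ball T R := fun g => ⟨ev T (a g), mem_ball T R _ (ha1 g)⟩
  have hF : ∀ g : ball S R, (F g : H) = ev T (a g) := fun _ => rfl
  have hbij : Function.Bijective F := by
    constructor
    · intro g g' hgg
      have h1 : ev T (a g) = ev T (a g') := congrArg Subtype.val hgg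
      have h2 := (key (a g) (a g') (by have := ha1 g; have := ha1 g'; omega)).2 h1
      rw [ha2', ha2'] at h2
      exact Subtype.ext h2
    · rintro ⟨_, l, hl, rfl⟩
      refine ⟨⟨ev S l, mem_ball S R l hl⟩, Subtype.ext ?_⟩
      rw [hF]
      refine (key _ l ?_).1 (ha2' _)
      have := ha1 ⟨ev S l, mem_ball S R l hl⟩
      omega
  refine ⟨Equiv.ofBijective F hbij, ?_⟩
  intro g g' i
  show (g' : G) = (g : G) * S i ↔ ev T (a g') = ev T (a g) * T i
  rw [← ev_single_true S i, ← ev_single_true T i, ← ev_append, ← key, ev_append, ha2', ha2']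
  rw [List.length_append]
  have := ha1 g
  have := ha1 g'
  simp only [List.length_singleton]
  omega

end TA1

/-- Task A1. -/
theorem a_ball : A_ball := by
  intro k G H _ _ T S
  constructor
  · intro h w
    obtain ⟨l, rfl⟩ : ∃ l, FreeGroup.mk l = w := ⟨w.toWord, FreeGroup.mk_toWord⟩
    filter_upwards [h l.length] with n hn
    rw [TA1.ev_mk, TA1.ev_mk]
    exact TA1.ballIso_word (S n) T l hn
  · intro h R
    have hfin : {l : List (Fin k × Bool) | l.length ≤ 2 * R + 1}.Finite :=
      List.finite_length_le _ _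
    have h1 : ∀ᶠ n in atTop, ∀ l ∈ {l : List (Fin k × Bool) | l.length ≤ 2 * R + 1},
        (TA1.ev (S n) l = 1 ↔ TA1.ev T l = 1) := by
      rw [Filter.eventually_all_finite hfin]
      intro l _
      have := h (FreeGroup.mk l)
      simp only [TA1.ev_mk] at this
      exact this
    filter_upwards [h1] with n hn
    exact TA1.word_ballIso (S n) T R hn

end Pool.Agent.Helper106.VN
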