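import Pool.Agent.Helper106.VN.Stmts

/-!
Task A2: independence of the generating tuple, and the word form with injective tuples.
-/

set_option autoImplicit false

namespace Pool.Agent.Helper106.VN

open Filter

namespace TA2

theorem gen_surj {ι G : Type} [Group G] {a : ι → G} (h : Gen a) (g : G) :
    ∃ w : FreeGroup ι, FreeGroup.lift a w = g := by
  have h1 : (FreeGroup.lift a).range = ⊤ := by
    rw [FreeGroup.range_lift_eq_closure]
    exact h
  have h2 : g ∈ (FreeGroup.lift a).range := by
    rw [h1]
    exact Subgroup.mem_top g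
  exact h2

theorem lift_mem {ι G : Type} [Group G] (a : ι → G) (w : FreeGroup ι) :
    FreeGroup.lift a w ∈ Subgroup.closure (Set.range a) := by
  rw [← FreeGroup.range_lift_eq_closure]
  exact ⟨w, rfl⟩

end TA2

open TA2

theorem a_indep : A_indep := by
  classical
  intro G H _ _ h m T' hT' W
  obtain ⟨k, T, hT, hW⟩ := h
  choose u hu using fun j => gen_surj hT (T' j)
  choose v hv using fun i => gen_surj hT' (T i)
  have hcomp : ∀ (X : Type) [Group X] (a : Fin k → X) (w : FreeGroup (Fin m)),
      FreeGroup.lift (fun j => FreeGroup.lift a (u j)) w =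
        FreeGroup.lift a (FreeGroup.lift u w) := by
    intro X _ a w
    have : FreeGroup.lift (fun j => FreeGroup.lift a (u j)) =
        (FreeGroup.lift a).comp (FreeGroup.lift u) := by
      ext j
      simp
    rw [this]
    rfl
  have hT2 : (fun j => FreeGroup.lift T (u j)) = T' := funext hu
  obtain ⟨S, hS, hS2⟩ := hW (W.image (FreeGroup.lift u) ∪
    Finset.univ.image fun i : Fin k => FreeGroup.lift u (v i) * (FreeGroup.of i)⁻¹)
  refine ⟨fun j => FreeGroup.lift S (u j), ?_, ?_⟩
  · have h1 : ∀ i, S i ∈ Subgroup.closure (Set.range fun j => FreeGroup.lift S (u j)) := by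
      intro i
      have h2 := (hS2 (FreeGroup.lift u (v i) * (FreeGroup.of i)⁻¹)
        (Finset.mem_union_right _ (Finset.mem_image_of_mem _ (Finset.mem_univ i)))).2 (by
          rw [map_mul, map_inv, FreeGroup.lift_apply_of, ← hcomp H T, hT2, hv, mul_inv_cancel])
      rw [map_mul, map_inv, FreeGroup.lift_apply_of, ← hcomp G S, mul_inv_eq_one] at h2
      rw [← h2]
      exact lift_mem _ _
    show Subgroup.closure _ = ⊤
    rw [eq_top_iff, ← hS, Subgroup.closure_le]
    rintro _ ⟨i, rfl⟩
    exact h1 i
  · intro w hw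
    rw [hcomp G S, hS2 _ (Finset.mem_union_left _ (Finset.mem_image_of_mem _ hw)), ← hcomp H T, hT2]

theorem a_words : A_words := by
  classical
  intro G H _ _
  constructor
  · rintro ⟨k, T, S, -, -, hT, hS, hw⟩
    refine ⟨k, T, hT, fun W => ?_⟩
    obtain ⟨n, hn⟩ := ((eventually_all_finset W).2 fun w _ => hw w).exists
    exact ⟨S n, hS n, hn⟩
  · intro h
    obtain ⟨k, T, hT, -⟩ := id h
    have hfin : (Set.range T).Finite := Set.finite_range T
    obtain ⟨m, T', hinj, hran⟩ := hfin.fin_param
    have hT' : Gen T' := by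
      show Subgroup.closure _ = ⊤
      rw [hran]
      exact hT
    obtain ⟨f, hf⟩ := exists_surjective_nat (FreeGroup (Fin m))
    choose S hS hS2 using fun n : ℕ => a_indep G H h m T' hT'
      ((Finset.range (n + 1)).image f ∪ Finset.univ.image fun p : Fin m × Fin m =>
        FreeGroup.of p.1 * (FreeGroup.of p.2)⁻¹)
    refine ⟨m, T', S, hinj, fun n i j hij => ?_, hT', hS, fun w => ?_⟩
    · have h1 := (hS2 n (FreeGroup.of i * (FreeGroup.of j)⁻¹)
        (Finset.mem_union_right _ (Finset.mem_image_of_mem
          (fun p : Fin m × Fin m => FreeGroup.of p.1 * (FreeGroup.of p.2)⁻¹)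
          (Finset.mem_univ (i, j))))).1 (by
            rw [map_mul, map_inv, FreeGroup.lift_apply_of, FreeGroup.lift_apply_of, hij, mul_inv_cancel])
      rw [map_mul, map_inv, FreeGroup.lift_apply_of, FreeGroup.lift_apply_of, mul_inv_eq_one] at h1
      exact hinj h1
    · obtain ⟨a, rfl⟩ := hf w
      filter_upwards [eventually_ge_atTop a] with n hn
      exact hS2 n (f a) (Finset.mem_union_left _ (Finset.mem_image_of_mem _
        (Finset.mem_range.2 (by omega))))

end Pool.Agent.Helper106.VN
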