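import Pool.Agent.Helper106.VN.Stmts

/-!
# VN106, task A3: formal properties of the limit preorder
-/

set_option autoImplicit false

namespace Pool.Agent.Helper106.VN

namespace TA3

theorem gen_iff {ι G : Type} [Group G] (a : ι → G) :
    Gen a ↔ Function.Surjective (FreeGroup.lift a) := by
  rw [← MonoidHom.range_eq_top, FreeGroup.range_lift_eq_closure]
  rfl

theorem exists_gen (G : Type) [Group G] (h : Group.FG G) : ∃ (k : ℕ) (T : Fin k → G), Gen T := by
  obtain ⟨α, hα, φ, hφ⟩ := Group.fg_iff_exists_freeGroup_hom_surjective_finite.mp h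
  obtain ⟨n, ⟨e⟩⟩ := Finite.exists_equiv_fin α
  refine ⟨n, fun i => φ (FreeGroup.of (e.symm i)), ?_⟩
  rw [gen_iff]
  intro g
  obtain ⟨w, rfl⟩ := hφ g
  refine ⟨FreeGroup.map e w, ?_⟩
  have : (FreeGroup.lift fun i => φ (FreeGroup.of (e.symm i))).comp (FreeGroup.map e) = φ := by
    ext a
    simp
  exact DFunLike.congr_fun this w

end TA3

theorem a_trans (h : A_indep) : A_trans := by
  intro G H K _ _ _ h1 h2
  obtain ⟨k, T, hT, hW⟩ := h2
  refine ⟨k, T, hT, fun W => ?_⟩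
  obtain ⟨S, hS, hSW⟩ := hW W
  obtain ⟨S', hS', hSW'⟩ := h G H h1 k S hS W
  exact ⟨S', hS', fun w hw => (hSW' w hw).trans (hSW w hw)⟩

theorem a_refl : A_refl := by
  intro G _ hG
  obtain ⟨k, T, hT⟩ := TA3.exists_gen G hG
  exact ⟨k, T, hT, fun W => ⟨T, hT, fun w _ => Iff.rfl⟩⟩

theorem a_disc : A_disc := by
  classical
  intro G H _ _ hH hd
  obtain ⟨k, T, hT⟩ := TA3.exists_gen H hH
  refine ⟨k, T, hT, fun W => ?_⟩
  obtain ⟨φ, hφ, hE⟩ := hd ((W.image (FreeGroup.lift T)).filter (fun h => h ≠ 1)) (by simp)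
  have hcomp : FreeGroup.lift (φ ∘ T) = φ.comp (FreeGroup.lift T) := by
    ext i
    simp
  refine ⟨φ ∘ T, ?_, fun w hw => ?_⟩
  · rw [TA3.gen_iff, hcomp]
    exact hφ.comp ((TA3.gen_iff T).mp hT)
  · rw [hcomp, MonoidHom.comp_apply]
    constructor
    · intro h1
      by_contra h2
      exact hE _ (Finset.mem_filter.mpr ⟨Finset.mem_image_of_mem _ hw, h2⟩) h1
    · intro h1
      rw [h1, map_one]

theorem a_fp (h : A_indep) : A_fp := by
  classical
  intro G H _ _ hH hP E hE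
  obtain ⟨n, φ₀, hφ₀, R, hR, hker⟩ := hH.out
  have hT : FreeGroup.lift (fun i => φ₀ (FreeGroup.of i)) = φ₀ := by
    ext i
    simp
  have hgen : Gen (fun i => φ₀ (FreeGroup.of i)) := by
    rw [TA3.gen_iff, hT]
    exact hφ₀
  obtain ⟨S, hS, hW⟩ := h G H hP n (fun i => φ₀ (FreeGroup.of i)) hgen
    (hR.toFinset ∪ E.image (Function.surjInv hφ₀))
  rw [hT] at hW
  have hle : φ₀.ker ≤ (FreeGroup.lift S).ker := by
    rw [← hker]
    apply Subgroup.normalClosure_le_normal
    intro r hr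
    have hr1 : φ₀ r = 1 := by
      have : r ∈ φ₀.ker := by
        rw [← hker]
        exact Subgroup.subset_normalClosure hr
      exact this
    exact (hW r (Finset.mem_union_left _ (hR.mem_toFinset.mpr hr))).mpr hr1
  refine ⟨φ₀.liftOfSurjective hφ₀ ⟨FreeGroup.lift S, hle⟩, ?_, ?_⟩
  · intro g
    obtain ⟨w, rfl⟩ := (TA3.gen_iff S).mp hS g
    exact ⟨φ₀ w, MonoidHom.liftOfRightInverse_comp_apply _ _ _ _ _⟩
  · intro e he h1
    have h2 : φ₀ (Function.surjInv hφ₀ e) = e := Function.surjInv_eq hφ₀ e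
    rw [← h2] at h1
    rw [MonoidHom.liftOfRightInverse_comp_apply] at h1
    have h3 := (hW _ (Finset.mem_union_right _ (Finset.mem_image_of_mem _ he))).mp h1
    rw [h2] at h3
    exact hE (h3 ▸ he)

theorem a_quot : A_quot := by
  intro G H _ _ hH hφ
  obtain ⟨N, hN, hf⟩ := hH
  obtain ⟨φ, hφ⟩ := hφ
  refine ⟨N.map φ, ?_, ?_⟩
  · obtain ⟨n, hn⟩ := (Subgroup.isNilpotent_iff_lowerCentralSeries N).mp hN
    refine (Subgroup.isNilpotent_iff_lowerCentralSeries _).mpr ⟨n, ?_⟩
    rw [← Subgroup.map_lowerCentralSeries, hn, Subgroup.map_bot]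
  · exact ⟨fun h0 => hf.index_ne_zero (Nat.eq_zero_of_zero_dvd (h0 ▸ N.index_map_dvd hφ))⟩

theorem a_up : A_up := by
  classical
  intro G H _ _ hG hP
  obtain ⟨N₀, hN₀, hf₀⟩ := hG
  obtain ⟨c, hc⟩ := (Subgroup.isNilpotent_iff_lowerCentralSeries N₀).mp hN₀
  obtain ⟨k, T, hT, hW⟩ := hP
  let N := N₀.normalCore
  have hNc : N.lowerCentralSeries c = ⊥ := by
    rw [eq_bot_iff, ← hc]
    exact Subgroup.lowerCentralSeries_mono c N₀.normalCore_le
  have hNf : N.FiniteIndex := inferInstance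
  -- the homomorphisms from the free group to the finite group `G / N`
  have key : ∃ θ : Fin k → G ⧸ N, ∀ w ∈ (FreeGroup.lift θ).ker.lowerCentralSeries c,
      FreeGroup.lift T w = 1 := by
    by_contra hcon
    push Not at hcon
    choose w hw hw1 using hcon
    have : Finite (Fin k → G ⧸ N) := Pi.finite
    have := Fintype.ofFinite (Fin k → G ⧸ N)
    obtain ⟨S, hS, hSW⟩ := hW (Finset.univ.image w)
    let θ : Fin k → G ⧸ N := fun i => QuotientGroup.mk' N (S i)
    have h1 := (hSW (w θ) (Finset.mem_image_of_mem _ (Finset.mem_univ _))).mp (by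
      have hcomp : FreeGroup.lift θ = (QuotientGroup.mk' N).comp (FreeGroup.lift S) := by
        ext i
        simp [θ]
      have h2 : (FreeGroup.lift θ).ker.map (FreeGroup.lift S) ≤ N := by
        rintro _ ⟨x, hx, rfl⟩
        have hx' : FreeGroup.lift θ x = 1 := hx
        rw [hcomp, MonoidHom.comp_apply] at hx'
        exact (QuotientGroup.eq_one_iff _).mp hx'
      have h3 : FreeGroup.lift S (w θ) ∈
          ((FreeGroup.lift θ).ker.lowerCentralSeries c).map (FreeGroup.lift S) :=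
        ⟨w θ, hw θ, rfl⟩
      rw [Subgroup.map_lowerCentralSeries] at h3
      have h4 := Subgroup.lowerCentralSeries_mono c h2 h3
      have h5 : FreeGroup.lift S (w θ) ∈ N.lowerCentralSeries c := h4
      rw [hNc] at h5
      exact Subgroup.mem_bot.mp h5)
    exact hw1 θ h1
  obtain ⟨θ, hθ⟩ := key
  refine ⟨(FreeGroup.lift θ).ker.map (FreeGroup.lift T), ?_, ?_⟩
  · refine (Subgroup.isNilpotent_iff_lowerCentralSeries _).mpr ⟨c, ?_⟩
    rw [← Subgroup.map_lowerCentralSeries, eq_bot_iff]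
    rintro _ ⟨x, hx, rfl⟩
    exact Subgroup.mem_bot.mpr (hθ x hx)
  · have : Finite (G ⧸ N) := inferInstance
    have : Finite (FreeGroup.lift θ).range := inferInstance
    have hfin : (FreeGroup.lift θ).ker.FiniteIndex := Subgroup.finiteIndex_ker _
    exact ⟨fun h0 => hfin.index_ne_zero
      (Nat.eq_zero_of_zero_dvd (h0 ▸ Subgroup.index_map_dvd _ ((TA3.gen_iff T).mp hT)))⟩

end Pool.Agent.Helper106.VN
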