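import Pool.Agent.Helper106.VN.Stmts

/-!
Assembly for MP_81bbc5_al: the diamond property and the theorem from the task statements.
-/

set_option autoImplicit false

namespace Pool.Agent.Helper106.VN

open Filter

theorem gen_iff_surj {ι G : Type} [Group G] (b : ι → G) :
    Gen b ↔ Function.Surjective (FreeGroup.lift b) := by
  rw [Gen, ← MonoidHom.range_eq_top, FreeGroup.range_lift_eq_closure]

theorem disc_quot (hD : D_gen) {G : Type} [Group G] (hfg : Group.FG G) {N : Subgroup G}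
    (hN : Good N) {J P : Type} (hJ : Finite J) {t : J → G} {y : P → G} (ht : Gen t)
    (hy : Subgroup.closure (Set.range y) = N) (K : Subgroup (FreeGroup (J ⊕ P))) [K.Normal]
    (hK : K = KK N (Sum.elim t fun _ : P => (1 : G))) : Disc G (FreeGroup (J ⊕ P) ⧸ K) := by
  classical
  intro E hE
  obtain ⟨b, hb, hbc, hW⟩ := hD G hfg N hN J P hJ t y ht hy (E.image Quotient.out) (by
    intro w hw
    obtain ⟨e, he, rfl⟩ := Finset.mem_image.1 hw
    rw [← hK]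
    intro h
    apply hE
    have h1 : (QuotientGroup.mk (Quotient.out e) : FreeGroup (J ⊕ P) ⧸ K) = e :=
      Quotient.out_eq e
    rw [(QuotientGroup.eq_one_iff _).2 h] at h1
    rw [h1]; exact he)
  have hk : ∀ w ∈ K, FreeGroup.lift b w = 1 := by
    intro w hw
    rw [hK] at hw
    exact hw b hbc
  refine ⟨QuotientGroup.lift K (FreeGroup.lift b) hk, ?_, ?_⟩
  · intro g
    obtain ⟨w, hw⟩ := (gen_iff_surj b).1 hb g
    exact ⟨QuotientGroup.mk w, hw⟩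
  · intro e he
    have h1 : (QuotientGroup.mk (Quotient.out e) : FreeGroup (J ⊕ P) ⧸ K) = e :=
      Quotient.out_eq e
    have h2 := hW _ (Finset.mem_image_of_mem _ he)
    intro h3
    apply h2
    rw [← h1] at h3
    exact h3

theorem exists_param {G : Type} [Group G] (N : Subgroup G) (h : N.FG) :
    ∃ (k : ℕ) (T : Fin k → G), Subgroup.closure (Set.range T) = N := by
  obtain ⟨S, hS, hf⟩ := (Subgroup.fg_iff _).1 h
  obtain ⟨k, T, -, hT⟩ := hf.fin_param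
  exact ⟨k, T, by rw [hT, hS]⟩

theorem exists_gen (G : Type) [Group G] (h : Group.FG G) : ∃ (k : ℕ) (T : Fin k → G), Gen T :=
  exists_param ⊤ (Group.fg_def.1 h)

theorem exists_pad {G : Type} [Group G] {N : Subgroup G} {A : Type} {y : A → G}
    (h : Subgroup.closure (Set.range y) = N) (B : Type) :
    Subgroup.closure (Set.range (Sum.elim y fun _ : B => (1 : G))) = N ∧
    Subgroup.closure (Set.range (Sum.elim (fun _ : B => (1 : G)) y)) = N := by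
  have key : ∀ (C : Type) (z : C → G), (∀ c, z c = 1 ∨ ∃ a, z c = y a) → (∀ a, ∃ c, z c = y a) →
      Subgroup.closure (Set.range z) = N := by
    intro C z h1 h2
    rw [← h]
    apply le_antisymm
    · rw [Subgroup.closure_le]
      rintro _ ⟨c, rfl⟩
      rcases h1 c with h3 | ⟨a, h3⟩
      · rw [h3]; exact Subgroup.one_mem _
      · rw [h3]; exact Subgroup.subset_closure ⟨a, rfl⟩
    · rw [Subgroup.closure_le]
      rintro _ ⟨a, rfl⟩
      obtain ⟨c, hc⟩ := h2 a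
      rw [← hc]; exact Subgroup.subset_closure ⟨c, rfl⟩
  constructor
  · apply key
    · rintro (a | b)
      · exact Or.inr ⟨a, rfl⟩
      · exact Or.inl rfl
    · exact fun a => ⟨Sum.inl a, rfl⟩
  · apply key
    · rintro (b | a)
      · exact Or.inl rfl
      · exact Or.inr ⟨a, rfl⟩
    · exact fun a => ⟨Sum.inr a, rfl⟩

theorem Gen.elim_left {G : Type} [Group G] {A B : Type} {y : A → G} (h : Gen y) (z : B → G) :
    Gen (Sum.elim y z) := by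
  rw [Gen, eq_top_iff, ← h]
  apply Subgroup.closure_mono
  rintro _ ⟨a, rfl⟩
  exact ⟨Sum.inl a, rfl⟩

theorem Gen.elim_right {G : Type} [Group G] {A B : Type} {y : A → G} (h : Gen y) (z : B → G) :
    Gen (Sum.elim z y) := by
  rw [Gen, eq_top_iff, ← h]
  apply Subgroup.closure_mono
  rintro _ ⟨a, rfl⟩
  exact ⟨Sum.inr a, rfl⟩

theorem Good.fg {G : Type} [Group G] (hfg : Group.FG G) {N : Subgroup G} (hN : Good N) :
    N.FG := by
  have := hN.finiteIndex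
  have := hfg
  exact (Group.fg_iff_subgroup_fg N).1 (Subgroup.fg_of_index_ne_zero N)

theorem e_diamond (h1 : A_disc) (h2 : A_fp) (h3 : A_vnfp) (h4 : B_good) (h5 : C_epi)
    (h6 : D_gen) : E_diamond := by
  intro G H₁ H₂ _ _ _ hG hH₁ hH₂ vG v₁ v₂ p₁ p₂
  obtain ⟨N, hN⟩ := h4 G hG vG
  obtain ⟨N₁, hN₁⟩ := h4 H₁ hH₁ v₁
  obtain ⟨N₂, hN₂⟩ := h4 H₂ hH₂ v₂
  obtain ⟨f₁, hf₁, hK₁⟩ := h5 G H₁ hG hH₁ (h2 _ _ (h3 _ hH₁ v₁) p₁) N N₁ hN hN₁
  obtain ⟨f₂, hf₂, hK₂⟩ := h5 G H₂ hG hH₂ (h2 _ _ (h3 _ hH₂ v₂) p₂) N N₂ hN hN₂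
  obtain ⟨k₁, T₁, hT₁⟩ := exists_gen H₁ hH₁
  obtain ⟨k₂, T₂, hT₂⟩ := exists_gen H₂ hH₂
  obtain ⟨a₁, y₁, hy₁⟩ := exists_param N₁ (hN₁.fg hH₁)
  obtain ⟨a₂, y₂, hy₂⟩ := exists_param N₂ (hN₂.fg hH₂)
  choose S₂ hS₂ using fun i => hf₁ (f₂ (T₂ i))
  choose S₁ hS₁ using fun i => hf₂ (f₁ (T₁ i))
  have hc : f₁ ∘ (Sum.elim (Sum.elim T₁ S₂) fun _ : Fin a₁ ⊕ Fin a₂ => (1 : H₁)) =
      f₂ ∘ (Sum.elim (Sum.elim S₁ T₂) fun _ : Fin a₁ ⊕ Fin a₂ => (1 : H₂)) := by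
    funext i
    rcases i with (i | i) | i
    · exact (hS₁ i).symm
    · exact hS₂ i
    · show f₁ 1 = f₂ 1
      rw [map_one, map_one]
  have hK : KK N₁ (Sum.elim (Sum.elim T₁ S₂) fun _ : Fin a₁ ⊕ Fin a₂ => (1 : H₁)) =
      KK N₂ (Sum.elim (Sum.elim S₁ T₂) fun _ : Fin a₁ ⊕ Fin a₂ => (1 : H₂)) := by
    rw [hK₁, hK₂, hc]
  refine ⟨FreeGroup ((Fin k₁ ⊕ Fin k₂) ⊕ (Fin a₁ ⊕ Fin a₂)) ⧸
    KK N₁ (Sum.elim (Sum.elim T₁ S₂) fun _ : Fin a₁ ⊕ Fin a₂ => (1 : H₁)), inferInstance,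
    inferInstance, ?_, ?_⟩
  · refine h1 _ _ inferInstance ?_
    exact disc_quot h6 hH₁ hN₁ inferInstance (hT₁.elim_left S₂) (exists_pad hy₁ (Fin a₂)).1 _ rfl
  · refine h1 _ _ inferInstance ?_
    exact disc_quot h6 hH₂ hN₂ inferInstance (hT₂.elim_right S₁) (exists_pad hy₂ (Fin a₁)).2 _ hK

theorem prec_iff (h1 : A_ball) (h2 : A_words) (G H : Type) [Group G] [Group H] :
    Prec G H ↔ PrecW G H := by
  rw [← h2]
  refine exists_congr fun k => exists_congr fun T => exists_congr fun S => ?_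
  rw [h1 k G H T S]

theorem eqv_vn (a1 : A_ball) (a2 : A_words) (a3 : A_up) (a4 : A_quot) (a5 : A_fp) (a6 : A_vnfp)
    {A B : FGGroup} (h : Relation.EqvGen FGGroup.Prec A B) :
    Group.IsVirtuallyNilpotent A.carrier ↔ Group.IsVirtuallyNilpotent B.carrier := by
  induction h with
  | rel A B h =>
    have h' : PrecW A.carrier B.carrier := (prec_iff a1 a2 _ _).1 h
    refine ⟨fun hA => a3 _ _ hA h', fun hB => a4 _ _ hB ?_⟩
    obtain ⟨φ, hφ, -⟩ := a5 _ _ (a6 _ B.fg hB) h' ∅ (by simp)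
    exact ⟨φ, hφ⟩
  | refl A => exact Iff.rfl
  | symm A B _ ih => exact ih.symm
  | trans A B C _ _ ih1 ih2 => exact ih1.trans ih2

theorem eqv_ub (a1 : A_ball) (a2 : A_words) (a3 : A_up) (a4 : A_quot) (a5 : A_fp) (a6 : A_vnfp)
    (a7 : A_trans) (a8 : A_refl) (e : E_diamond)
    {A B : FGGroup} (h : Relation.EqvGen FGGroup.Prec A B)
    (hA : Group.IsVirtuallyNilpotent A.carrier) : ∃ U : FGGroup, A.Prec U ∧ B.Prec U := by
  have hrefl : ∀ A : FGGroup, A.Prec A := fun A => (prec_iff a1 a2 _ _).2 (a8 _ A.fg)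
  have htrans : ∀ A B C : FGGroup, A.Prec B → B.Prec C → A.Prec C := fun A B C h1 h2 =>
    (prec_iff a1 a2 _ _).2 (a7 _ _ _ ((prec_iff a1 a2 _ _).1 h1) ((prec_iff a1 a2 _ _).1 h2))
  induction h with
  | rel A B h => exact ⟨B, h, hrefl B⟩
  | refl A => exact ⟨A, hrefl A, hrefl A⟩
  | symm A B h ih =>
    obtain ⟨U, h1, h2⟩ := ih ((eqv_vn a1 a2 a3 a4 a5 a6 h).2 hA)
    exact ⟨U, h2, h1⟩
  | trans A B C h1 h2 ih1 ih2 =>
    have hB := (eqv_vn a1 a2 a3 a4 a5 a6 h1).1 hA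
    obtain ⟨U, hAU, hBU⟩ := ih1 hA
    obtain ⟨V, hBV, hCV⟩ := ih2 hB
    have hU := (eqv_vn a1 a2 a3 a4 a5 a6 (.rel _ _ hBU)).1 hB
    have hV := (eqv_vn a1 a2 a3 a4 a5 a6 (.rel _ _ hBV)).1 hB
    obtain ⟨X, _, hX, h3, h4⟩ := e B.carrier U.carrier V.carrier B.fg U.fg V.fg hB hU hV
      ((prec_iff a1 a2 _ _).1 hBU) ((prec_iff a1 a2 _ _).1 hBV)
    refine ⟨⟨X⟩, htrans _ U _ hAU ?_, htrans _ V _ hCV ?_⟩
    · exact (prec_iff a1 a2 _ _).2 h3
    · exact (prec_iff a1 a2 _ _).2 h4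

theorem main (a1 : A_ball) (a2 : A_words) (a3 : A_up) (a4 : A_quot) (a5 : A_fp) (a6 : A_vnfp)
    (a7 : A_trans) (a8 : A_refl) (e : E_diamond) : Main := by
  have htrans : ∀ A B C : FGGroup, A.Prec B → B.Prec C → A.Prec C := fun A B C h1 h2 =>
    (prec_iff a1 a2 _ _).2 (a7 _ _ _ ((prec_iff a1 a2 _ _).1 h1) ((prec_iff a1 a2 _ _).1 h2))
  rintro C ⟨A, rfl⟩ ⟨G, hG, hvn⟩ F hF
  have hA := (eqv_vn a1 a2 a3 a4 a5 a6 hG).2 hvn
  induction F, hF using Set.Finite.induction_on with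
  | empty =>
    intro _
    exact ⟨A, .refl A, fun G hG => absurd hG (Set.notMem_empty G)⟩
  | @insert a F _ _ ih =>
    intro h
    obtain ⟨U, hU, hUF⟩ := ih ((Set.subset_insert a F).trans h)
    have ha : Relation.EqvGen FGGroup.Prec A a := h (Set.mem_insert a F)
    have haU : Relation.EqvGen FGGroup.Prec a U := (ha.symm).trans _ _ _ hU
    obtain ⟨V, h1, h2⟩ := eqv_ub a1 a2 a3 a4 a5 a6 a7 a8 e haU
      ((eqv_vn a1 a2 a3 a4 a5 a6 ha).1 hA)
    refine ⟨V, .trans _ _ _ ha (.rel _ _ h1), ?_⟩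
    intro G hG
    rcases Set.mem_insert_iff.1 hG with rfl | hG
    · exact h1
    · exact htrans _ _ _ (hUF G hG) h2

end Pool.Agent.Helper106.VN
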