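import Pool.Agent.Helper106.VN.Asm
import Pool.Agent.H44R2.WrN.SepTop
import Pool.Agent.H53R2.FinNil
import Pool.Agent.Helper277.Solv2

/-!
Existence of good subgroups.
-/

set_option autoImplicit false

namespace Pool.Agent.Helper106.VN

namespace TB1

theorem all_fg {Q : Type} [Group Q] (hfg : Group.FG Q) (hn : Group.IsNilpotent Q)
    (K : Subgroup Q) : K.FG := by
  have : Group.IsNilpotent (⊤ : Subgroup Q) := inferInstance
  exact Helper111.EN.NSc.NS_of_nilpotent_fg (⊤ : Subgroup Q) this (Group.fg_def.1 hfg) K le_top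

open scoped IsMulCommutative in
theorem resid {Q : Type} [Group Q] (hfg : Group.FG Q) (hn : Group.IsNilpotent Q) {x : Q}
    (hx : x ≠ 1) : ∃ M : Subgroup Q, M.Normal ∧ M.FiniteIndex ∧ x ∉ M := by
  have hwf : WellFoundedGT (Subgroup Q) := H44R2.WrN.wf_of_fg (all_fg hfg hn)
  let s : Set (Subgroup Q) := {M | M.Normal ∧ x ∉ M}
  obtain ⟨M, ⟨hMn, hxM⟩, hmax⟩ := hwf.wf.has_min s
    ⟨⊥, inferInstance, fun h => hx (Subgroup.mem_bot.1 h)⟩
  refine ⟨M, hMn, ?_, hxM⟩
  have key : ∀ L : Subgroup (Q ⧸ M), L.Normal → L ≠ ⊥ → (x : Q ⧸ M) ∈ L := by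
    intro L hL hL1
    by_contra hxL
    have h1 : L.comap (QuotientGroup.mk' M) ∈ s := ⟨hL.comap _, hxL⟩
    apply hmax _ h1
    refine lt_of_le_of_ne ?_ ?_
    · intro y hy
      show ((y : Q) : Q ⧸ M) ∈ L
      rw [(QuotientGroup.eq_one_iff y).2 hy]
      exact L.one_mem
    · intro h
      apply hL1
      rw [eq_bot_iff]
      intro z hz
      obtain ⟨y, rfl⟩ := QuotientGroup.mk_surjective z
      have : y ∈ L.comap (QuotientGroup.mk' M) := hz
      rw [← h] at this
      rw [Subgroup.mem_bot, QuotientGroup.eq_one_iff]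
      exact this
  have hx1 : (x : Q ⧸ M) ≠ 1 := fun h => hxM ((QuotientGroup.eq_one_iff x).1 h)
  have hfgq : Group.FG (Q ⧸ M) := inferInstance
  have hnq : Group.IsNilpotent (Q ⧸ M) := inferInstance
  have hzn : ∀ z ∈ Subgroup.center (Q ⧸ M), (Subgroup.zpowers z).Normal := by
    intro z hz
    constructor
    intro n hn g
    have hnc : n ∈ Subgroup.center (Q ⧸ M) := (Subgroup.zpowers_le.2 hz) hn
    rw [Subgroup.mem_center_iff.1 hnc g, mul_inv_cancel_right]
    exact hn
  have htor : ∀ z ∈ Subgroup.center (Q ⧸ M), IsOfFinOrder z := by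
    intro z hz
    by_contra hinf
    have hz1 : ∀ n : ℤ, z ^ n = 1 → n = 0 := by
      intro n hn
      by_contra h0
      exact hinf (isOfFinOrder_iff_zpow_eq_one.2 ⟨n, h0, hn⟩)
    have h1 : ∀ n : ℤ, n ≠ 0 → (x : Q ⧸ M) ∈ Subgroup.zpowers (z ^ n) := by
      intro n hn
      apply key _ (hzn _ (zpow_mem hz n))
      intro h
      rw [Subgroup.zpowers_eq_bot] at h
      exact hn (hz1 n h)
    obtain ⟨a, ha⟩ := Subgroup.mem_zpowers_iff.1 (h1 1 one_ne_zero)
    rw [zpow_one] at ha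
    have ha0 : a ≠ 0 := by
      rintro rfl
      rw [zpow_zero] at ha
      exact hx1 ha.symm
    obtain ⟨m, hm⟩ := Subgroup.mem_zpowers_iff.1 (h1 (2 * a) (by omega))
    rw [← ha, ← zpow_mul] at hm
    have h2 : z ^ (2 * a * m - a) = 1 := by
      rw [zpow_sub, hm, mul_inv_cancel]
    have h3 := hz1 _ h2
    have h4 : a * (2 * m - 1) = 0 := by rw [← h3]; ring
    rcases mul_eq_zero.1 h4 with h | h
    · exact ha0 h
    · omega
  have hcfg : Group.FG (Subgroup.center (Q ⧸ M)) :=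
    (Group.fg_iff_subgroup_fg _).2 (all_fg hfgq hnq _)
  have hcfin : Finite (Subgroup.center (Q ⧸ M)) := by
    refine CommGroup.finite_of_fg_isMulTorsion _ ?_
    intro z
    rw [isOfFinOrder_iff_pow_eq_one]
    obtain ⟨n, hn, h⟩ := isOfFinOrder_iff_pow_eq_one.1 (htor z z.2)
    exact ⟨n, hn, Subtype.ext h⟩
  have hfin : Finite (Q ⧸ M) := by
    refine H53R2.fin_nil _ (Nat.card (Subgroup.center (Q ⧸ M))) Nat.card_pos ?_
    intro z hz
    have := pow_card_eq_one' (x := (⟨z, hz⟩ : Subgroup.center (Q ⧸ M)))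
    exact congrArg Subtype.val this
  exact Subgroup.finiteIndex_of_finite_quotient

theorem exists_tf {Q : Type} [Group Q] (hfg : Group.FG Q) (hn : Group.IsNilpotent Q) :
    ∃ M : Subgroup Q, M.FiniteIndex ∧ ∀ x ∈ M, ∀ n : ℕ, 0 < n → x ^ n = 1 → x = 1 := by
  have := hn
  obtain ⟨I, hI⟩ := ConradSol.exists_isolator (⊥ : Subgroup Q)
  have hIf : Finite I := by
    have h1 : Group.FG I := (Group.fg_iff_subgroup_fg _).2 (all_fg hfg hn _)
    have h2 : Group.IsNilpotent I := inferInstance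
    refine Helper111.EN.finite_of_fg_nilpotent I ?_
    intro x
    obtain ⟨k, hk, hx⟩ := (hI x).1 x.2
    rw [isOfFinOrder_iff_pow_eq_one]
    exact ⟨k, hk, Subtype.ext (Subgroup.mem_bot.1 hx)⟩
  have h1 : ∀ x : I, ∃ M : Subgroup Q, M.FiniteIndex ∧ ((x : Q) ∈ M → x = 1) := by
    intro x
    by_cases hx : (x : Q) = 1
    · exact ⟨⊤, inferInstance, fun _ => Subtype.ext hx⟩
    · obtain ⟨M, -, hM, hxM⟩ := resid hfg hn hx
      exact ⟨M, hM, fun h => absurd h hxM⟩
  choose M hM hM1 using h1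
  refine ⟨⨅ x, M x, ?_, ?_⟩
  · exact Subgroup.finiteIndex_iInf hM
  · intro x hx n hn0 hxn
    have hxI : x ∈ I := (hI x).2 ⟨n, hn0, Subgroup.mem_bot.2 hxn⟩
    exact congrArg Subtype.val (hM1 ⟨x, hxI⟩ (Subgroup.mem_iInf.1 hx _))

theorem nil_le {G : Type} [Group G] {K N : Subgroup G} (h : K ≤ N) (hN : Group.IsNilpotent N) :
    Group.IsNilpotent K := by
  have := hN
  exact Subgroup.isNilpotent_of_ker_le_center (Subgroup.inclusion h)
    (by rw [(MonoidHom.ker_eq_bot_iff _).2 (Subgroup.inclusion_injective h)]; exact bot_le)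

end TB1

theorem b_good : B_good := by
  rintro G _ hfg ⟨N₀, hn, hf⟩
  have hN1f : N₀.normalCore.FiniteIndex := inferInstance
  have hN1n : Group.IsNilpotent N₀.normalCore := TB1.nil_le N₀.normalCore_le hn
  have hN1fg : Group.FG N₀.normalCore := Subgroup.fg_of_index_ne_zero _
  obtain ⟨K, hKf, hK⟩ := TB1.exists_tf hN1fg hN1n
  have hKf' : (K.map N₀.normalCore.subtype).FiniteIndex := by
    constructor
    rw [Subgroup.index_map_subtype]
    exact mul_ne_zero hKf.index_ne_zero hN1f.index_ne_zero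
  refine ⟨(K.map N₀.normalCore.subtype).normalCore, inferInstance, inferInstance, ?_, ?_⟩
  · refine TB1.nil_le ((Subgroup.normalCore_le _).trans ?_) hN1n
    rintro _ ⟨x, _, rfl⟩
    exact x.2
  · intro x hx n hn0 hxn
    obtain ⟨y, hy, rfl⟩ := Subgroup.normalCore_le _ hx
    have : y = 1 := hK y hy n hn0 (Subtype.ext hxn)
    rw [this]; rfl

theorem b_inf : B_inf := by
  intro G _ N K hN hK hKf
  have h1 := hN.normal
  have h2 := hN.finiteIndex
  exact ⟨inferInstance, inferInstance, TB1.nil_le inf_le_left hN.nil,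
    fun x hx => hN.tf x hx.1⟩

theorem b_map : B_map := by
  intro G H _ _ N M f hf hN hM hle
  have h1 := hM.normal
  refine ⟨h1.map f hf, ?_, TB1.nil_le hle hN.nil, fun x hx => hN.tf x (hle hx)⟩
  constructor
  intro h0
  have h2 := Subgroup.index_map_dvd M hf
  rw [h0, zero_dvd_iff] at h2
  exact hM.finiteIndex.index_ne_zero h2

end Pool.Agent.Helper106.VN
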