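import Pool.Agent.Helper106.VN.Stmts
import Pool.Agent.H44R2.WrN.SepTop

/-!
Task C1: `C_zero`, polynomial families in virtually nilpotent groups.
-/

set_option autoImplicit false

namespace Pool.Agent.Helper106.VN

namespace TC1

open Pool.Agent.H44R2.WrN

/-- all `K`-fold differences vanish -/
def Pl {V : Type} [AddCommGroup V] : ℕ → (ℤ → V) → Prop
  | 0, f => ∀ s, f s = 0
  | K + 1, f => Pl K (fun s => f (s + 1) - f s)

theorem Pl.zero {V : Type} [AddCommGroup V] (K : ℕ) : Pl K (fun _ : ℤ => (0 : V)) := by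
  induction K with
  | zero => exact fun _ => rfl
  | succ K ih =>
    show Pl K _
    simpa only [sub_zero] using ih

theorem Pl.congr {V : Type} [AddCommGroup V] {K : ℕ} {f g : ℤ → V} (h : Pl K f)
    (hfg : ∀ s, f s = g s) : Pl K g := by
  have : f = g := funext hfg
  rwa [this] at h

theorem Pl.add {V : Type} [AddCommGroup V] {K : ℕ} {f g : ℤ → V} (hf : Pl K f) (hg : Pl K g) :
    Pl K (fun s => f s + g s) := by
  induction K generalizing f g with
  | zero =>
    intro s
    show f s + g s = 0
    rw [hf s, hg s, add_zero]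
  | succ K ih =>
    refine (ih (f := fun s => f (s + 1) - f s) (g := fun s => g (s + 1) - g s) hf hg).congr ?_
    intro s
    exact (add_sub_add_comm _ _ _ _).symm

theorem Pl.map {V V' : Type} [AddCommGroup V] [AddCommGroup V'] (φ : V →+ V') {K : ℕ} {f : ℤ → V}
    (hf : Pl K f) : Pl K (fun s => φ (f s)) := by
  induction K generalizing f with
  | zero =>
    intro s
    show φ (f s) = 0
    rw [hf s, map_zero]
  | succ K ih =>
    refine (ih (f := fun s => f (s + 1) - f s) hf).congr ?_
    intro s
    rw [map_sub]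

theorem Pl.shift {V : Type} [AddCommGroup V] {K : ℕ} {f : ℤ → V} (hf : Pl K f) :
    Pl K (fun s => f (s + 1)) := by
  induction K generalizing f with
  | zero => exact fun s => hf _
  | succ K ih => exact ih (f := fun s => f (s + 1) - f s) hf

theorem Pl.succ {V : Type} [AddCommGroup V] {K : ℕ} {f : ℤ → V} (hf : Pl K f) : Pl (K + 1) f := by
  induction K generalizing f with
  | zero =>
    intro s
    show f (s + 1) - f s = 0
    rw [hf s, hf (s + 1), sub_zero]
  | succ K ih => exact ih (f := fun s => f (s + 1) - f s) hf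

theorem Pl.mono {V : Type} [AddCommGroup V] {K K' : ℕ} {f : ℤ → V} (hf : Pl K f) (h : K ≤ K') :
    Pl K' f := by
  induction h with
  | refl => exact hf
  | step _ ih => exact ih.succ

open Polynomial in
/-- antiderivatives -/
theorem exists_anti (q : ℚ[X]) : ∃ Q : ℚ[X], ∀ x : ℚ, Q.eval (x + 1) - Q.eval x = q.eval x := by
  induction q using Polynomial.induction_on' with
  | add p q hp hq =>
    obtain ⟨P, hP⟩ := hp
    obtain ⟨Q, hQ⟩ := hq
    refine ⟨P + Q, fun x => ?_⟩
    rw [eval_add, eval_add, eval_add, ← hP, ← hQ]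
    ring
  | monomial n a =>
    refine ⟨C (a / (n + 1)) * Polynomial.bernoulli (n + 1), fun x => ?_⟩
    have h1 : ∀ y : ℚ, (C (a / (n + 1)) * Polynomial.bernoulli (n + 1)).eval y =
        a / (n + 1) * (Polynomial.bernoulli (n + 1)).eval y := by
      intro y
      rw [eval_mul, eval_C]
    rw [h1, h1, add_comm x 1, Polynomial.bernoulli_eval_one_add,
      eval_monomial, Nat.add_sub_cancel]
    have : (n : ℚ) + 1 ≠ 0 := by positivity
    push_cast
    field_simp
    ring

open Polynomial in
theorem Pl.poly {K : ℕ} {p : ℤ → ℚ} (hp : Pl K p) : ∃ q : ℚ[X], ∀ s : ℤ, p s = q.eval (s : ℚ) := by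
  induction K generalizing p with
  | zero => exact ⟨0, fun s => by rw [hp s, eval_zero]⟩
  | succ K ih =>
    obtain ⟨q, hq⟩ := ih hp
    obtain ⟨Q, hQ⟩ := exists_anti q
    have h1 : ∀ s : ℤ, p (s + 1) - Q.eval ((s + 1 : ℤ) : ℚ) = p s - Q.eval (s : ℚ) := by
      intro s
      have h2 := hq s
      have h3 := hQ s
      push_cast
      linarith
    have h2 : ∀ s : ℤ, p s - Q.eval (s : ℚ) = p 0 - Q.eval 0 := by
      intro s
      induction s using Int.induction_on with
      | zero => simp
      | succ i hi => rw [h1]; exact hi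
      | pred i hi =>
        rw [← h1]
        simpa using hi
    refine ⟨Q + C (p 0 - Q.eval 0), fun s => ?_⟩
    rw [eval_add, eval_C, ← h2 s]
    ring

open Polynomial in
theorem Pl.finite {K : ℕ} {p : ℤ → ℚ} (hp : Pl K p) (s₀ : ℤ) (h : p s₀ ≠ 0) :
    {s : ℤ | p s = 0}.Finite := by
  obtain ⟨q, hq⟩ := hp.poly
  have hq0 : q ≠ 0 := by
    rintro rfl
    exact h (by rw [hq, eval_zero])
  refine ((q.roots.toFinset.finite_toSet).preimage (f := fun s : ℤ => (s : ℚ))
    (Int.cast_injective.injOn)).subset ?_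
  intro s hs
  have : p s = 0 := hs
  simp only [Set.mem_preimage, Finset.mem_coe, Multiset.mem_toFinset, mem_roots hq0, IsRoot.def]
  rw [← hq]
  exact this

section

variable {G : Type} [Group G]

/-- functions on `G` killed by all `k`-fold differences by elements of `N` -/
def WW (N : Subgroup G) : ℕ → Set (G → ℚ)
  | 0 => {0}
  | k + 1 => {l | ∀ n ∈ N, dl n l ∈ WW N k}

theorem WW_zero (N : Subgroup G) (k : ℕ) : (0 : G → ℚ) ∈ WW N k := by
  induction k with
  | zero => rfl
  | succ k ih =>
    intro n _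
    rw [map_zero]
    exact ih

theorem WW_add (N : Subgroup G) {k : ℕ} {l l' : G → ℚ} (h : l ∈ WW N k) (h' : l' ∈ WW N k) :
    l + l' ∈ WW N k := by
  induction k generalizing l l' with
  | zero =>
    have h1 : l = 0 := h
    have h2 : l' = 0 := h'
    show l + l' = 0
    rw [h1, h2, add_zero]
  | succ k ih =>
    intro n hn
    rw [map_add]
    exact ih (h n hn) (h' n hn)

theorem WW_neg (N : Subgroup G) {k : ℕ} {l : G → ℚ} (h : l ∈ WW N k) :
    -l ∈ WW N k := by
  induction k generalizing l with
  | zero =>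
    have h1 : l = 0 := h
    show -l = 0
    rw [h1, neg_zero]
  | succ k ih =>
    intro n hn
    rw [map_neg]
    exact ih (h n hn)

theorem WW_succ (N : Subgroup G) {k : ℕ} {l : G → ℚ} (h : l ∈ WW N k) : l ∈ WW N (k + 1) := by
  induction k generalizing l with
  | zero =>
    have h1 : l = 0 := h
    intro n _
    rw [h1, map_zero]
    rfl
  | succ k ih =>
    intro n hn
    exact ih (h n hn)

theorem WW_rt {N : Subgroup G} [hN : N.Normal] (g : G) {k : ℕ} {l : G → ℚ} (h : l ∈ WW N k) :
    rt g l ∈ WW N k := by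
  induction k generalizing l with
  | zero =>
    have h1 : l = 0 := h
    show rt g l = 0
    rw [h1, map_zero]
  | succ k ih =>
    intro n hn
    have h1 : g⁻¹ * n * g ∈ N := by
      have := hN.conj_mem n hn g⁻¹
      rwa [inv_inv] at this
    have h2 : dl n (rt g l) = rt g (dl (g⁻¹ * n * g) l) := by
      funext x
      simp only [dl_apply, rt_apply]
      congr 2
      group
    rw [h2]
    exact ih (h _ h1)

theorem rt_mul (a b : G) (l : G → ℚ) : rt (a * b) l = rt a (rt b l) := by
  funext x
  simp only [rt_apply, mul_assoc]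

theorem rt_one (l : G → ℚ) : rt (1 : G) l = l := by
  funext x
  simp only [rt_apply, mul_one]

/-- the main induction -/
theorem pl_rt {N : Subgroup G} [hN : N.Normal] {u : G} (hu : u ∈ N) :
    ∀ (k K : ℕ) (f : ℤ → G → ℚ), (∀ s, f s ∈ WW N k) → Pl K f →
      Pl (k + K) (fun s => rt (u ^ s) (f s)) := by
  intro k
  induction k with
  | zero =>
    intro K f hf _
    refine (Pl.zero (0 + K)).congr fun s => ?_
    have : f s = 0 := hf s
    rw [this, map_zero]
  | succ k ihk =>
    intro K
    induction K with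
    | zero =>
      intro f _ hf
      refine (Pl.zero (k + 1 + 0)).congr fun s => ?_
      rw [hf s, map_zero]
    | succ K ihK =>
      intro f hf hfK
      have e : k + 1 + (K + 1) = (k + (K + 1)) + 1 := by ring
      rw [e]
      change Pl (k + (K + 1)) (fun s => rt (u ^ (s + 1)) (f (s + 1)) - rt (u ^ s) (f s))
      have h0 : Pl (K + 1) (fun s => dl u (f (s + 1))) :=
        Pl.map (dl u).toAddMonoidHom (Pl.shift (f := f) hfK)
      have h1 := ihk (K + 1) (fun s => dl u (f (s + 1))) (fun s => hf (s + 1) u hu) h0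
      have h2 := ihK (fun s => f (s + 1) - f s) (fun s => by
        rw [sub_eq_add_neg]; exact WW_add N (hf _) (WW_neg N (hf _))) hfK
      have e2 : k + 1 + K = k + (K + 1) := by ring
      rw [e2] at h2
      refine (h1.add h2).congr fun s => ?_
      show rt (u ^ s) (dl u (f (s + 1))) + rt (u ^ s) (f (s + 1) - f s) = _
      rw [← map_add]
      have e3 : dl u (f (s + 1)) + (f (s + 1) - f s) = rt u (f (s + 1)) - f s := by
        rw [dl_eq]; abel
      rw [e3, map_sub, ← rt_mul, ← zpow_add_one]

/-- polynomial families of functions -/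
def PF (N : Subgroup G) (k : ℕ) (f : ℤ → G → ℚ) : Prop := (∀ s, f s ∈ WW N k) ∧ ∃ K, Pl K f

/-- polynomial maps to `G` -/
def PM (N : Subgroup G) (a : ℤ → G) : Prop :=
  ∀ k f, PF N k f → PF N k (fun s => rt (a s) (f s))

theorem PM.mul {N : Subgroup G} {a b : ℤ → G} (ha : PM N a) (hb : PM N b) :
    PM N (fun s => a s * b s) := by
  intro k f hf
  have := ha k _ (hb k f hf)
  simpa only [rt_mul] using this

theorem PM.const {N : Subgroup G} [hN : N.Normal] (g : G) : PM N (fun _ => g) := by
  intro k f hf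
  refine ⟨fun s => WW_rt g (hf.1 s), ?_⟩
  obtain ⟨K, hK⟩ := hf.2
  exact ⟨K, Pl.map (rt g).toAddMonoidHom hK⟩

theorem PM.zpow {N : Subgroup G} [hN : N.Normal] {u : G} (hu : u ∈ N) : PM N (fun s => u ^ s) := by
  intro k f hf
  refine ⟨fun s => WW_rt _ (hf.1 s), ?_⟩
  obtain ⟨K, hK⟩ := hf.2
  exact ⟨_, pl_rt hu k K f hf.1 hK⟩

theorem PM.word {N : Subgroup G} [hN : N.Normal] {ι : Type} (g u : ι → G) (hu : ∀ i, u i ∈ N)
    (w : FreeGroup ι) : PM N (fun s => FreeGroup.lift (fun i => g i * u i ^ s) w) ∧
      PM N (fun s => (FreeGroup.lift (fun i => g i * u i ^ s) w)⁻¹) := by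
  induction w using FreeGroup.induction_on with
  | C1 =>
    simp only [map_one, inv_one]
    exact ⟨PM.const 1, PM.const 1⟩
  | of i =>
    simp only [FreeGroup.lift_apply_of, mul_inv_rev]
    refine ⟨(PM.const (g i)).mul (PM.zpow (hu i)), ?_⟩
    have h1 := (PM.zpow (N := N) (N.inv_mem (hu i))).mul (PM.const (N := N) (g i)⁻¹)
    simpa only [inv_zpow] using h1
  | inv_of i ih =>
    simp only [map_inv, inv_inv]
    exact ⟨ih.2, ih.1⟩
  | mul x y hx hy =>
    simp only [map_mul, mul_inv_rev]
    exact ⟨hx.1.mul hy.1, hy.2.mul hx.2⟩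

/-- extension by zero -/
noncomputable def ext (N : Subgroup G) (l : N → ℚ) : G → ℚ :=
  fun x => by classical exact if h : x ∈ N then l ⟨x, h⟩ else 0

theorem ext_mem (N : Subgroup G) (l : N → ℚ) (x : G) (h : x ∈ N) : ext N l x = l ⟨x, h⟩ := by
  rw [ext, dif_pos h]

theorem ext_not_mem (N : Subgroup G) (l : N → ℚ) (x : G) (h : x ∉ N) : ext N l x = 0 := by
  rw [ext, dif_neg h]

theorem ext_WW (N : Subgroup G) {k : ℕ} {l : N → ℚ} (h : l ∈ P (⊤ : Subgroup N) k) :
    ext N l ∈ WW N k := by
  induction k generalizing l with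
  | zero =>
    show ext N l = 0
    funext x
    by_cases hx : x ∈ N
    · rw [ext_mem N l x hx, Pi.zero_apply]
      exact mem_P_zero.1 h _ (Subgroup.mem_top _)
    · rw [ext_not_mem N l x hx, Pi.zero_apply]
  | succ k ih =>
    intro n hn
    have h1 := mem_P_succ.1 h ⟨n, hn⟩ (Subgroup.mem_top _)
    have h2 : dl n (ext N l) = ext N (dl (⟨n, hn⟩ : N) l) := by
      funext x
      by_cases hx : x ∈ N
      · rw [dl_apply, ext_mem N l x hx, ext_mem N _ x hx, ext_mem N l (x * n) (N.mul_mem hx hn),
          dl_apply]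
        rfl
      · have hx2 : x * n ∉ N := fun h => hx ((N.mul_mem_cancel_right hn).1 h)
        rw [dl_apply, ext_not_mem N l x hx, ext_not_mem N _ x hx, ext_not_mem N l _ hx2, sub_zero]
    rw [h2]
    exact ih h1

end

end TC1

open TC1 Pool.Agent.H44R2.WrN in
theorem c_zero : C_zero := by
  intro G _ hfg N hN ι g u hu w s₀ hs₀
  have hnorm := hN.normal
  have hfi := hN.finiteIndex
  by_cases hmem : FreeGroup.lift (fun i => g i * u i ^ s₀) w ∈ N
  · have hfgN : Group.FG N := by
      exact Subgroup.fg_of_index_ne_zero N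
    have hnil := hN.nil
    have htf : OD.TF N := by
      intro q n hn hq
      have := hN.tf q q.2 n hn (by
        have := congrArg Subtype.val hq
        simpa using this)
      exact Subtype.ext this
    have hsep := sep_top (N := N) hnil htf
    obtain ⟨k, l, hl, hne⟩ := hsep ⟨_, hmem⟩ (Subgroup.mem_top _) (fun h => hs₀ (congrArg Subtype.val h))
    have hL := ext_WW N hl
    have h1 : PF N k (fun _ => ext N l) := ⟨fun _ => hL, 1, fun s => sub_self _⟩
    obtain ⟨-, K, hK⟩ := (PM.word g u hu w).1 k _ h1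
    have h2 : Pl K (fun s : ℤ => (ext N l) (FreeGroup.lift (fun i => g i * u i ^ s) w)) := by
      refine (Pl.map (Pi.evalAddMonoidHom (fun _ : G => ℚ) 1) hK).congr fun s => ?_
      show (rt _ (ext N l)) 1 = _
      rw [rt_apply, one_mul]
    have h3 : Pl 1 (fun _ : ℤ => -(ext N l) 1) := fun s => sub_self _
    have h4 := (h2.mono (le_max_left K 1)).add (h3.mono (le_max_right K 1))
    refine (h4.finite s₀ ?_).subset ?_
    · show (ext N l) _ + -(ext N l) 1 ≠ 0
      rw [ext_mem N l _ hmem, ext_mem N l 1 N.one_mem]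
      intro h
      exact hne (by
        have : (⟨1, N.one_mem⟩ : N) = 1 := rfl
        rw [this] at h
        linarith)
    · intro s hs
      have hs' : FreeGroup.lift (fun i => g i * u i ^ s) w = 1 := hs
      show (ext N l) (FreeGroup.lift (fun i => g i * u i ^ s) w) + -(ext N l) 1 = 0
      rw [hs', add_neg_cancel]
  · refine Set.finite_empty.subset ?_
    intro s hs
    have hs' : FreeGroup.lift (fun i => g i * u i ^ s) w = 1 := hs
    have key : ∀ s : ℤ, QuotientGroup.mk' N (FreeGroup.lift (fun i => g i * u i ^ s) w) =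
        FreeGroup.lift (fun i => QuotientGroup.mk' N (g i)) w := by
      intro s
      have : (QuotientGroup.mk' N).comp (FreeGroup.lift (fun i => g i * u i ^ s)) =
          FreeGroup.lift (fun i => QuotientGroup.mk' N (g i)) := by
        ext i
        simp only [MonoidHom.comp_apply, FreeGroup.lift_apply_of, map_mul, map_zpow]
        have hz : QuotientGroup.mk' N (u i) = 1 := (QuotientGroup.eq_one_iff (u i)).2 (hu i)
        rw [hz, one_zpow, mul_one]
      exact DFunLike.congr_fun this w
    exfalso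
    apply hmem
    have h1 := (key s₀).trans (key s).symm
    rw [hs', map_one] at h1
    exact (QuotientGroup.eq_one_iff _).1 h1

end Pool.Agent.Helper106.VN
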