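import Pool.Agent.Helper106.VN.Stmts

/-!
C2: (2.1) and (2.2) of the paper, from C_zero.
-/

set_option autoImplicit false

namespace Pool.Agent.Helper106.VN

open Filter

theorem c_irr (h : C_zero) : C_irr := by
  classical
  intro G _ hG N hN ι c W hW
  induction W using Finset.induction_on with
  | empty => exact ⟨c, Cong.refl N c, by simp⟩
  | insert w' W hw' ih =>
    obtain ⟨b, hb, hbW⟩ := ih fun w hw => hW w (Finset.mem_insert_of_mem hw)
    have hw0 := hW w' (Finset.mem_insert_self _ _)
    rw [mem_KK] at hw0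
    push Not at hw0
    obtain ⟨b', hb', hbw'⟩ := hw0
    have hu : ∀ i, (b i)⁻¹ * b' i ∈ N := by
      intro i
      have h1 := N.mul_mem (N.inv_mem (hb i)) (hb' i)
      have h2 : ((c i)⁻¹ * b i)⁻¹ * ((c i)⁻¹ * b' i) = (b i)⁻¹ * b' i := by group
      rwa [h2] at h1
    have key : ∀ w ∈ insert w' W,
        {s : ℤ | FreeGroup.lift (fun i => b i * ((b i)⁻¹ * b' i) ^ s) w = 1}.Finite := by
      intro w hw
      rw [Finset.mem_insert] at hw
      rcases hw with hw | hw
      · refine h G hG N hN ι b (fun i => (b i)⁻¹ * b' i) hu w 1 ?_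
        have h1 : (fun i => b i * ((b i)⁻¹ * b' i) ^ (1 : ℤ)) = b' := by
          funext i
          group
        rw [h1, hw]
        exact hbw'
      · refine h G hG N hN ι b (fun i => (b i)⁻¹ * b' i) hu w 0 ?_
        have h1 : (fun i => b i * ((b i)⁻¹ * b' i) ^ (0 : ℤ)) = b := by
          funext i
          group
        rw [h1]
        exact hbW w hw
    have hfin := (insert w' W).finite_toSet.biUnion key
    obtain ⟨s, hs⟩ := hfin.exists_notMem
    refine ⟨fun i => b i * ((b i)⁻¹ * b' i) ^ s, ?_, ?_⟩
    · intro i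
      have h1 := N.mul_mem (hb i) (N.zpow_mem (hu i) s)
      rwa [mul_assoc] at h1
    · intro w hw h1
      apply hs
      rw [Set.mem_iUnion₂]
      exact ⟨w, hw, h1⟩

theorem c_sub (h : C_zero) : C_sub := by
  intro G _ hG N N' hN hN' hle ι c
  apply le_antisymm
  · intro w hw
    by_contra hcon
    rw [mem_KK] at hcon
    push Not at hcon
    obtain ⟨b, hb, hbw⟩ := hcon
    have h1 : (fun i => c i * ((c i)⁻¹ * b i) ^ (1 : ℤ)) = b := by
      funext i
      group
    have hfin := h G hG N hN ι c (fun i => (c i)⁻¹ * b i) hb w 1 (by rw [h1]; exact hbw)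
    have hn := hN'.normal
    have hi := hN'.finiteIndex
    have hM : N'.index ≠ 0 := hi.index_ne_zero
    have hinf : (Set.range fun k : ℤ => (N'.index : ℤ) * k).Infinite := by
      apply Set.infinite_range_of_injective
      intro a a' haa
      have h2 : (N'.index : ℤ) ≠ 0 := by exact_mod_cast hM
      exact mul_left_cancel₀ h2 haa
    apply hinf
    refine hfin.subset ?_
    rintro _ ⟨k, rfl⟩
    refine hw _ ?_
    intro i
    have h3 : ((c i)⁻¹ * b i) ^ N'.index ∈ N' := N'.pow_index_mem _
    have h4 := N'.zpow_mem h3 k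
    rw [← zpow_natCast, ← zpow_mul] at h4
    simpa using h4
  · intro w hw b hb
    exact hw b fun i => hle (hb i)

end Pool.Agent.Helper106.VN
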