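import Pool.Agent.Helper106.VN.Asm

/-!
(2.3): the groups `K` of a group and of its limits agree.
-/

set_option autoImplicit false

namespace Pool.Agent.Helper106.VN

namespace TC3

theorem lift_comp {ι G H : Type} [Group G] [Group H] (f : H →* G) (a : ι → H)
    (w : FreeGroup ι) : FreeGroup.lift (f ∘ a) w = f (FreeGroup.lift a w) := by
  have : FreeGroup.lift (f ∘ a) = f.comp (FreeGroup.lift a) := by
    apply FreeGroup.ext_hom
    intro i
    simp
  rw [this]; rfl

theorem finite_hom {H Q : Type} [Group H] [Group Q] (h : Group.FG H) [Finite Q] :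
    Finite (H →* Q) := by
  obtain ⟨k, T, hT⟩ := exists_gen H h
  refine Finite.of_injective (fun f : H →* Q => f ∘ T) ?_
  intro f g hfg
  refine MonoidHom.eq_of_eqOn_dense hT ?_
  rintro _ ⟨i, rfl⟩
  exact congrFun hfg i

end TC3

theorem c_epi (hs : C_sub) (hi : B_inf) (hm : B_map) : C_epi := by
  classical
  intro G H _ _ hG hH hD N M hN hM
  have hNn := hN.normal
  have hNf := hN.finiteIndex
  have hfin : Finite (H →* G ⧸ N) := TC3.finite_hom hH
  have key : ∃ θ : H →* G ⧸ N, ∀ E : Finset H, (1 : H) ∉ E → ∃ φ : H →* G,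
      Function.Surjective φ ∧ (∀ h ∈ E, φ h ≠ 1) ∧ (QuotientGroup.mk' N).comp φ = θ := by
    by_contra hcon
    push Not at hcon
    choose E hE1 hE using hcon
    have := Fintype.ofFinite (H →* G ⧸ N)
    obtain ⟨φ, hφ, h2⟩ := hD (Finset.univ.biUnion E) (by
      simp only [Finset.mem_biUnion, Finset.mem_univ, true_and, not_exists]
      exact hE1)
    refine hE ((QuotientGroup.mk' N).comp φ) φ hφ ?_ rfl
    intro h hh
    exact h2 h (Finset.mem_biUnion.2 ⟨_, Finset.mem_univ _, hh⟩)
  obtain ⟨θ, hθ⟩ := key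
  obtain ⟨f, hf, -, hfθ⟩ := hθ ∅ (by simp)
  refine ⟨f, hf, ?_⟩
  intro ι c
  have hM' : Good (M ⊓ θ.ker) := hi H M θ.ker hM inferInstance
    (Subgroup.finiteIndex_ker θ)
  have e1 : KK (M ⊓ θ.ker) c = KK M c := hs H hH M _ hM hM' inf_le_left ι c
  have hθe : ∀ (φ : H →* G), (QuotientGroup.mk' N).comp φ = θ → ∀ x, (φ x : G ⧸ N) = θ x := by
    intro φ h x
    rw [← h]; rfl
  have hle : (M ⊓ θ.ker).map f ≤ N := by
    rintro _ ⟨x, hx, rfl⟩
    rw [← QuotientGroup.eq_one_iff, hθe f hfθ]
    exact hx.2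
  have hmap : Good ((M ⊓ θ.ker).map f) := hm G H N _ f hf hN hM' hle
  have e2 : KK ((M ⊓ θ.ker).map f) (f ∘ c) = KK N (f ∘ c) := hs G hG N _ hN hmap hle ι _
  rw [← e1]
  apply le_antisymm
  · rw [← e2]
    intro w hw b hb
    choose n hn1 hn2 using hb
    have h1 : b = f ∘ (fun i => c i * n i) := by
      funext i
      rw [Function.comp_apply, map_mul, hn2 i, Function.comp_apply, mul_inv_cancel_left]
    rw [h1, TC3.lift_comp, hw, map_one]
    intro i
    rw [inv_mul_cancel_left]
    exact hn1 i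
  · intro w hw b hb
    by_contra hne
    obtain ⟨φ, -, hφ, hφθ⟩ := hθ {FreeGroup.lift b w} (by
      rw [Finset.mem_singleton]; exact fun h => hne h.symm)
    apply hφ _ (Finset.mem_singleton_self _)
    rw [← TC3.lift_comp]
    apply hw
    intro i
    rw [← QuotientGroup.eq, Function.comp_apply, Function.comp_apply, hθe f hfθ, hθe φ hφθ,
      ← inv_mul_eq_one, ← map_inv, ← map_mul]
    exact (hb i).2

end Pool.Agent.Helper106.VN
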