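import Pool.Agent.Helper106.VN.Stmts

/-!
D1: in a finitely generated nilpotent group generated by a subgroup `B` and the squares every element
has a power in `B`.
-/

set_option autoImplicit false

namespace Pool.Agent.Helper106.VN

namespace TD1

open scoped commutatorElement

section comm

variable {A : Type} [Group A]

theorem comm_mul_left {x y y' : A} (h : ∀ g, Commute (⁅y', x⁆) g) : ⁅y * y', x⁆ = ⁅y, x⁆ * ⁅y', x⁆ := by
  have h1 : ⁅y * y', x⁆ = y * ⁅y', x⁆ * y⁻¹ * ⁅y, x⁆ := by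
    simp only [commutatorElement_def]; group
  rw [h1, ← (h y).eq, mul_inv_cancel_right, (h _).eq]

theorem comm_mul_right {x x' y : A} (h : ∀ g, Commute (⁅y, x'⁆) g) : ⁅y, x * x'⁆ = ⁅y, x⁆ * ⁅y, x'⁆ := by
  have h1 : ⁅y, x * x'⁆ = ⁅y, x⁆ * (x * ⁅y, x'⁆ * x⁻¹) := by
    simp only [commutatorElement_def]; group
  rw [h1, ← (h x).eq, mul_inv_cancel_right]

theorem comm_pow_right {x y : A} (h : ∀ g, Commute (⁅y, x⁆) g) (m : ℕ) : ⁅y, x ^ m⁆ = ⁅y, x⁆ ^ m := by
  induction m with
  | zero => simp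
  | succ m ih => rw [pow_succ, comm_mul_right h, ih, pow_succ]

theorem comm_pow_left {x y : A} (h : ∀ g, Commute (⁅y, x⁆) g) (m : ℕ) : ⁅y ^ m, x⁆ = ⁅y, x⁆ ^ m := by
  induction m with
  | zero => simp
  | succ m ih => rw [pow_succ, comm_mul_left h, ih, pow_succ]

theorem comm_central {b b' z z' : A} (hz : ∀ g, Commute z g) (hz' : ∀ g, Commute z' g) :
    ⁅b * z, b' * z'⁆ = ⁅b, b'⁆ := by
  simp only [commutatorElement_def, mul_inv_rev]
  have e1 : b * z * (b' * z') * (z⁻¹ * b⁻¹) * (z'⁻¹ * b'⁻¹) =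
      b * (z * (b' * z')) * z⁻¹ * b⁻¹ * z'⁻¹ * b'⁻¹ := by group
  rw [e1, (hz (b' * z')).eq]
  have e2 : b * (b' * z' * z) * z⁻¹ * b⁻¹ * z'⁻¹ * b'⁻¹ = b * b' * (z' * b⁻¹) * z'⁻¹ * b'⁻¹ := by group
  rw [e2, (hz' b⁻¹).eq]
  group

end comm

theorem main (c : ℕ) : ∀ (A : Type) [Group A], (⊤ : Subgroup A).lowerCentralSeries c = ⊥ →
    ∀ B : Subgroup A, (∀ x : A, ∃ k : ℕ, 0 < k ∧ x ^ k ∈ B ⊔ commutator A) →
      ∀ x : A, ∃ k : ℕ, 0 < k ∧ x ^ k ∈ B := by
  induction c with
  | zero =>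
    intro A _ hA B _ x
    have h1 : (⊤ : Subgroup A) = ⊥ := hA
    have h2 : x ∈ (⊥ : Subgroup A) := h1 ▸ Subgroup.mem_top x
    rw [Subgroup.mem_bot] at h2
    exact ⟨1, one_pos, by rw [h2, one_pow]; exact B.one_mem⟩
  | succ n ih =>
    intro A _ hA B hB x
    rcases n with _ | c
    · rw [Subgroup.top_lowerCentralSeries_one] at hA
      obtain ⟨k, hk, h⟩ := hB x
      rw [hA, sup_bot_eq] at h
      exact ⟨k, hk, h⟩
    set Z : Subgroup A := (⊤ : Subgroup A).lowerCentralSeries (c + 1) with hZ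
    have hZn : Z.Normal := inferInstance
    have hcen : ∀ z ∈ Z, ∀ g, Commute z g := by
      intro z hz g
      have h1 : ⁅z, g⁆ ∈ (⊤ : Subgroup A).lowerCentralSeries (c + 1 + 1) :=
        Subgroup.commutator_mem_commutator hz (Subgroup.mem_top g)
      rw [hA, Subgroup.mem_bot] at h1
      exact commutatorElement_eq_one_iff_commute.1 h1
    -- powers modulo `Z`
    have hq : ∀ x : A, ∃ k : ℕ, 0 < k ∧ ∃ b ∈ B, ∃ z ∈ Z, x ^ k = b * z := by
      intro x
      have h1 : (⊤ : Subgroup (A ⧸ Z)).lowerCentralSeries (c + 1) = ⊥ := by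
        have h2 := Subgroup.map_lowerCentralSeries (⊤ : Subgroup A) (QuotientGroup.mk' Z) (c + 1)
        rw [← hZ, Subgroup.map_top_of_surjective _ (QuotientGroup.mk'_surjective Z)] at h2
        rw [← h2, Subgroup.map_eq_bot_iff, QuotientGroup.ker_mk']
      obtain ⟨k, hk, h⟩ := ih (A ⧸ Z) h1 (B.map (QuotientGroup.mk' Z)) (by
        intro y
        obtain ⟨y, rfl⟩ := QuotientGroup.mk'_surjective Z y
        obtain ⟨k, hk, h⟩ := hB y
        refine ⟨k, hk, ?_⟩
        have h3 : QuotientGroup.mk' Z (y ^ k) ∈ (B ⊔ commutator A).map (QuotientGroup.mk' Z) :=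
          Subgroup.mem_map_of_mem _ h
        rw [Subgroup.map_sup, map_pow] at h3
        refine (sup_le_sup_left (c := B.map (QuotientGroup.mk' Z)) ?_ :
          B.map (QuotientGroup.mk' Z) ⊔ (commutator A).map (QuotientGroup.mk' Z) ≤
            B.map (QuotientGroup.mk' Z) ⊔ commutator (A ⧸ Z)) h3
        rw [commutator_def, commutator_def, Subgroup.map_commutator]
        exact Subgroup.commutator_mono le_top le_top) (QuotientGroup.mk' Z x)
      obtain ⟨b, hb, hbx⟩ := Subgroup.mem_map.1 h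
      refine ⟨k, hk, b, hb, b⁻¹ * x ^ k, ?_, by group⟩
      rw [← map_pow] at hbx
      exact QuotientGroup.eq.1 hbx
    -- elements of `Z`
    have hz : ∀ z ∈ Z, ∃ k : ℕ, 0 < k ∧ z ^ k ∈ B := by
      intro z hz
      have hZc : Z = Subgroup.closure {g | ∃ y ∈ (⊤ : Subgroup A).lowerCentralSeries c,
        ∃ x ∈ (⊤ : Subgroup A), ⁅y, x⁆ = g} := by
        rw [hZ, Subgroup.lowerCentralSeries_succ, Subgroup.commutator_def]
      have key : z ∈ Z ∧ ∃ k : ℕ, 0 < k ∧ z ^ k ∈ B := by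
        rw [hZc] at hz
        induction hz using Subgroup.closure_induction with
        | mem g hg =>
          obtain ⟨y, hy, x, hx, rfl⟩ := hg
          have hm : ∀ y' ∈ (⊤ : Subgroup A).lowerCentralSeries c, ∀ x' : A, ⁅y', x'⁆ ∈ Z :=
            fun y' hy' x' => Subgroup.commutator_mem_commutator hy' (Subgroup.mem_top x')
          refine ⟨hm y hy x, ?_⟩
          obtain ⟨k, hk, b, hb, z, hz, h1⟩ := hq y
          obtain ⟨m, hm', b', hb', z', hz', h2⟩ := hq x
          refine ⟨k * m, Nat.mul_pos hk hm', ?_⟩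
          rw [pow_mul, ← comm_pow_left (hcen _ (hm y hy x)),
            ← comm_pow_right (hcen _ (hm _ (Subgroup.pow_mem _ hy k) x)), h1, h2,
            comm_central (hcen z hz) (hcen z' hz'), commutatorElement_def]
          exact B.mul_mem (B.mul_mem (B.mul_mem hb hb') (B.inv_mem hb)) (B.inv_mem hb')
        | one => exact ⟨Z.one_mem, 1, one_pos, by rw [one_pow]; exact B.one_mem⟩
        | mul x y _ _ hx hy =>
          obtain ⟨hx, k, hk, hxk⟩ := hx
          obtain ⟨hy, m, hm, hym⟩ := hy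
          refine ⟨Z.mul_mem hx hy, k * m, Nat.mul_pos hk hm, ?_⟩
          rw [(hcen x hx y).mul_pow, pow_mul, mul_comm k m, pow_mul]
          exact B.mul_mem (B.pow_mem hxk _) (B.pow_mem hym _)
        | inv x _ hx =>
          obtain ⟨hx, k, hk, hxk⟩ := hx
          exact ⟨Z.inv_mem hx, k, hk, by rw [inv_pow]; exact B.inv_mem hxk⟩
      exact key.2
    obtain ⟨k, hk, b, hb, z, hzZ, h1⟩ := hq x
    obtain ⟨m, hm, h2⟩ := hz z hzZ
    refine ⟨k * m, Nat.mul_pos hk hm, ?_⟩
    rw [pow_mul, h1, (hcen z hzZ b).symm.mul_pow]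
    exact B.mul_mem (B.pow_mem hb _) h2

/-- an abelian f.g. group with `X = X²` has odd exponent -/
theorem odd_exp {X : Type} [CommGroup X] (hfg : Group.FG X) (h : ∀ x : X, ∃ y, y ^ 2 = x) :
    ∃ k : ℕ, 0 < k ∧ ∀ x : X, x ^ k = 1 := by
  have hf : Module.Finite ℤ (Additive X) := by
    rw [Module.Finite.iff_addGroup_fg]
    exact GroupFG.iff_add_fg.1 hfg
  obtain ⟨r, hr, hr0⟩ := Submodule.exists_sub_one_mem_and_smul_eq_zero_of_fg_of_le_smul
    (Ideal.span {(2 : ℤ)}) (⊤ : Submodule ℤ (Additive X)) hf.fg_top (by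
      rintro x -
      obtain ⟨y, hy⟩ := h (Additive.toMul x)
      have : x = (2 : ℤ) • (Additive.ofMul y) := by
        apply Additive.toMul.injective
        rw [← hy, toMul_zsmul, zpow_ofNat]
        rfl
      rw [this]
      exact Submodule.smul_mem_smul (Ideal.mem_span_singleton_self 2) Submodule.mem_top)
  obtain ⟨a, ha⟩ := Ideal.mem_span_singleton'.1 hr
  have hne : r ≠ 0 := by omega
  refine ⟨r.natAbs, Int.natAbs_pos.2 hne, fun x => ?_⟩
  have h1 : x ^ r = 1 := by
    have := hr0 (Additive.ofMul x) Submodule.mem_top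
    exact congrArg Additive.toMul this
  exact pow_natAbs_eq_one.2 h1

end TD1

open scoped commutatorElement in
theorem d_isol : D_isol := by
  intro A _ hfg hnil B hB
  obtain ⟨c, hc⟩ := Subgroup.nilpotent_iff_lowerCentralSeries.1 hnil
  refine TD1.main c A hc B ?_
  set C : Subgroup A := B ⊔ commutator A with hC
  have hcomm : ∀ x y : A, ⁅x, y⁆ ∈ C := fun x y =>
    (le_sup_right : commutator A ≤ C) (Subgroup.commutator_mem_commutator (Subgroup.mem_top x) (Subgroup.mem_top y))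
  have hn : C.Normal := ⟨fun n hn g => by
    have h1 : g * n * g⁻¹ = ⁅g, n⁆ * n := by rw [commutatorElement_def]; group
    rw [h1]
    exact C.mul_mem (hcomm g n) hn⟩
  let _ : CommGroup (A ⧸ C) :=
    { (inferInstance : Group (A ⧸ C)) with
      mul_comm := by
        intro x y
        obtain ⟨x, rfl⟩ := QuotientGroup.mk'_surjective C x
        obtain ⟨y, rfl⟩ := QuotientGroup.mk'_surjective C y
        have h1 : QuotientGroup.mk' C ⁅x, y⁆ = 1 := (QuotientGroup.eq_one_iff _).2 (hcomm x y)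
        rw [map_commutatorElement, commutatorElement_eq_one_iff_mul_comm] at h1
        exact h1 }
  have hfX : Group.FG (A ⧸ C) := inferInstance
  obtain ⟨k, hk, h⟩ := TD1.odd_exp hfX (by
    have h1 : (⊤ : Subgroup A) ≤ ((powMonoidHom 2 : (A ⧸ C) →* (A ⧸ C)).range).comap (QuotientGroup.mk' C) := by
      rw [← hB, sup_le_iff]
      constructor
      · intro b hb
        refine ⟨1, ?_⟩
        rw [map_one]
        exact ((QuotientGroup.eq_one_iff b).2 ((le_sup_left : B ≤ C) hb)).symm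
      · rw [Subgroup.closure_le]
        rintro _ ⟨x, rfl⟩
        exact ⟨QuotientGroup.mk' C x, rfl⟩
    intro x
    obtain ⟨x, rfl⟩ := QuotientGroup.mk'_surjective C x
    exact h1 (Subgroup.mem_top x))
  intro x
  refine ⟨k, hk, ?_⟩
  have := h (QuotientGroup.mk' C x)
  rw [← map_pow] at this
  exact (QuotientGroup.eq_one_iff _).1 this

end Pool.Agent.Helper106.VN
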