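import Mathlib

/-!
# The limit preorder on finitely generated groups and its connected components (MP_81bbc5_al)

Definitions for the directedness of components of virtually nilpotent groups.
-/

set_option autoImplicit false

namespace Pool.Agent.Helper106.VN

open Filter

/-- The family `a` generates the group `G`. -/
def Gen {ι G : Type} [Group G] (a : ι → G) : Prop := Subgroup.closure (Set.range a) = ⊤

/-- The ball of radius `R` about the identity in the Cayley graph `Cay(G,S)`, `S = (S_0,…,S_{k-1})`:
the products of at most `R` factors `S_i` or `S_i⁻¹`. -/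
def ball {k : ℕ} {G : Type} [Group G] (S : Fin k → G) (R : ℕ) : Set G :=
  {g | ∃ l : List (Fin k × Bool), l.length ≤ R ∧
    (l.map fun p => cond p.2 (S p.1) (S p.1)⁻¹).prod = g}

/-- The balls of radius `R` about the identity in `Cay(G,S)` and `Cay(H,T)` are isomorphic as labelled
graphs (an edge labelled `i` joins `g` to `g S_i`, resp. `h` to `h T_i`). -/
def BallIso {k : ℕ} {G H : Type} [Group G] [Group H] (S : Fin k → G) (T : Fin k → H) (R : ℕ) :
    Prop :=
  ∃ f : ball S R ≃ ball T R, ∀ (g g' : ball S R) (i : Fin k),
    (g' : G) = (g : G) * S i ↔ (f g' : H) = (f g : H) * T i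

/-- `G ⪯ H`: there are a finite generating set `T` of `H`, finite generating sets `S_n` of `G` and
bijections `S_n → T` (both sets are enumerated by `Fin k`) such that for every `R` and all large `n`
the balls of radius `R` of `Cay(G,S_n)` and `Cay(H,T)` are isomorphic as labelled graphs. -/
def Prec (G H : Type) [Group G] [Group H] : Prop :=
  ∃ (k : ℕ) (T : Fin k → H) (S : ℕ → Fin k → G),
    Function.Injective T ∧ (∀ n, Function.Injective (S n)) ∧ Gen T ∧ (∀ n, Gen (S n)) ∧
    ∀ R : ℕ, ∀ᶠ n in atTop, BallIso (S n) T R

/-- A finitely generated group (every finitely generated group is countable, so it has a copy whose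
underlying set is a member of `Type`). -/
structure FGGroup where
  /-- the underlying set -/
  carrier : Type
  /-- the group structure -/
  [grp : Group carrier]
  /-- it is finitely generated -/
  [fg : Group.FG carrier]

attribute [instance] FGGroup.grp FGGroup.fg

/-- The relation `⪯` between finitely generated groups. -/
def FGGroup.Prec (A B : FGGroup) : Prop := VN.Prec A.carrier B.carrier

/-- `C` is a connected component of the graph whose vertices are the finitely generated groups and
whose edges are the pairs `A ⪯ B`. -/
def IsComponent (C : Set FGGroup) : Prop :=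
  ∃ A : FGGroup, C = {B | Relation.EqvGen FGGroup.Prec A B}

/-- word form of `Prec`. -/
def PrecW (G H : Type) [Group G] [Group H] : Prop :=
  ∃ (k : ℕ) (T : Fin k → H), Gen T ∧ ∀ W : Finset (FreeGroup (Fin k)),
    ∃ S : Fin k → G, Gen S ∧ ∀ w ∈ W, (FreeGroup.lift S w = 1 ↔ FreeGroup.lift T w = 1)

/-- Every finite set of nontrivial elements of `H` survives in an epimorphism onto `G`. -/
def Disc (G H : Type) [Group G] [Group H] : Prop :=
  ∀ E : Finset H, (1 : H) ∉ E → ∃ φ : H →* G, Function.Surjective φ ∧ ∀ h ∈ E, φ h ≠ 1

/-- good subgroups: normal of finite index, torsion-free nilpotent. -/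
structure Good {G : Type} [Group G] (N : Subgroup G) : Prop where
  normal : N.Normal
  finiteIndex : N.FiniteIndex
  nil : Group.IsNilpotent N
  tf : ∀ x ∈ N, ∀ n : ℕ, 0 < n → x ^ n = 1 → x = 1

/-- `b = c` modulo `N`. -/
def Cong {ι G : Type} [Group G] (N : Subgroup G) (b c : ι → G) : Prop := ∀ i, (c i)⁻¹ * b i ∈ N

/-- the words which vanish on all tuples congruent to `c` modulo `N`. -/
def KK {ι G : Type} [Group G] (N : Subgroup G) (c : ι → G) : Subgroup (FreeGroup ι) where
  carrier := {w | ∀ b : ι → G, Cong N b c → FreeGroup.lift b w = 1}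
  mul_mem' := by
    intro x y hx hy b hb
    rw [map_mul, hx b hb, hy b hb, mul_one]
  one_mem' := fun b _ => map_one _
  inv_mem' := by
    intro x hx b hb
    rw [map_inv, hx b hb, inv_one]

theorem mem_KK {ι G : Type} [Group G] {N : Subgroup G} {c : ι → G} {w : FreeGroup ι} :
    w ∈ KK N c ↔ ∀ b : ι → G, Cong N b c → FreeGroup.lift b w = 1 := Iff.rfl

instance KK_normal {ι G : Type} [Group G] (N : Subgroup G) (c : ι → G) : (KK N c).Normal := by
  constructor
  intro x hx g b hb
  rw [map_mul, map_mul, hx b hb, mul_one, map_inv, mul_inv_cancel]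

theorem Cong.refl {ι G : Type} [Group G] (N : Subgroup G) (c : ι → G) : Cong N c c := by
  intro i
  rw [inv_mul_cancel]
  exact N.one_mem

end Pool.Agent.Helper106.VN
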