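import Pool.Agent.Helper106.VN.Defs

/-!
Task statements for MP_81bbc5_al (papers id 145).
-/

set_option autoImplicit false

namespace Pool.Agent.Helper106.VN

open Filter

/-! ## A: the preorder -/

/-- A1: balls and words. -/
def A_ball : Prop :=
  ∀ (k : ℕ) (G H : Type) [Group G] [Group H] (T : Fin k → H) (S : ℕ → Fin k → G),
    (∀ R : ℕ, ∀ᶠ n in atTop, BallIso (S n) T R) ↔
      ∀ w : FreeGroup (Fin k), ∀ᶠ n in atTop, (FreeGroup.lift (S n) w = 1 ↔ FreeGroup.lift T w = 1)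

/-- A2: independence of the generating tuple. -/
def A_indep : Prop :=
  ∀ (G H : Type) [Group G] [Group H], PrecW G H → ∀ (m : ℕ) (T : Fin m → H), Gen T →
    ∀ W : Finset (FreeGroup (Fin m)),
      ∃ S : Fin m → G, Gen S ∧ ∀ w ∈ W, (FreeGroup.lift S w = 1 ↔ FreeGroup.lift T w = 1)

/-- A2: from sequences to finite sets and back, injective tuples. -/
def A_words : Prop :=
  ∀ (G H : Type) [Group G] [Group H],
    (∃ (k : ℕ) (T : Fin k → H) (S : ℕ → Fin k → G),
      Function.Injective T ∧ (∀ n, Function.Injective (S n)) ∧ Gen T ∧ (∀ n, Gen (S n)) ∧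
      ∀ w : FreeGroup (Fin k), ∀ᶠ n in atTop, (FreeGroup.lift (S n) w = 1 ↔ FreeGroup.lift T w = 1)) ↔ PrecW G H

/-- A3 -/
def A_trans : Prop :=
  ∀ (G H K : Type) [Group G] [Group H] [Group K], PrecW G H → PrecW H K → PrecW G K

/-- A3 -/
def A_refl : Prop := ∀ (G : Type) [Group G], Group.FG G → PrecW G G

/-- A3 -/
def A_disc : Prop :=
  ∀ (G H : Type) [Group G] [Group H], Group.FG H → Disc G H → PrecW G H

/-- A3 -/
def A_fp : Prop :=
  ∀ (G H : Type) [Group G] [Group H], Group.IsFinitelyPresented H → PrecW G H → Disc G H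

/-- A4 -/
def A_vnfp : Prop :=
  ∀ (G : Type) [Group G], Group.FG G → Group.IsVirtuallyNilpotent G →
    Group.IsFinitelyPresented G

/-- A5 -/
def A_up : Prop :=
  ∀ (G H : Type) [Group G] [Group H], Group.IsVirtuallyNilpotent G → PrecW G H →
    Group.IsVirtuallyNilpotent H

/-- A5 -/
def A_quot : Prop :=
  ∀ (G H : Type) [Group G] [Group H], Group.IsVirtuallyNilpotent H →
    (∃ φ : H →* G, Function.Surjective φ) → Group.IsVirtuallyNilpotent G

/-! ## B: good subgroups -/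

/-- B1 -/
def B_good : Prop :=
  ∀ (G : Type) [Group G], Group.FG G → Group.IsVirtuallyNilpotent G → ∃ N : Subgroup G, Good N

/-- B1 -/
def B_inf : Prop :=
  ∀ (G : Type) [Group G] (N K : Subgroup G), Good N → K.Normal → K.FiniteIndex → Good (N ⊓ K)

/-- B1 -/
def B_map : Prop :=
  ∀ (G H : Type) [Group G] [Group H] (N : Subgroup G) (M : Subgroup H) (f : H →* G),
    Function.Surjective f → Good N → Good M → M.map f ≤ N → Good (M.map f)

/-! ## C: polynomial families -/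

/-- C1: (1.1) of the paper. -/
def C_zero : Prop :=
  ∀ (G : Type) [Group G], Group.FG G → ∀ N : Subgroup G, Good N →
    ∀ (ι : Type) (g u : ι → G), (∀ i, u i ∈ N) → ∀ (w : FreeGroup ι) (s₀ : ℤ),
      FreeGroup.lift (fun i => g i * u i ^ s₀) w ≠ 1 →
      {s : ℤ | FreeGroup.lift (fun i => g i * u i ^ s) w = 1}.Finite

/-- C2: (2.1) -/
def C_irr : Prop :=
  ∀ (G : Type) [Group G], Group.FG G → ∀ N : Subgroup G, Good N →
    ∀ (ι : Type) (c : ι → G) (W : Finset (FreeGroup ι)), (∀ w ∈ W, w ∉ KK N c) →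
      ∃ b : ι → G, Cong N b c ∧ ∀ w ∈ W, FreeGroup.lift b w ≠ 1

/-- C2: (2.2) -/
def C_sub : Prop :=
  ∀ (G : Type) [Group G], Group.FG G → ∀ N N' : Subgroup G, Good N → Good N' → N' ≤ N →
    ∀ (ι : Type) (c : ι → G), KK N' c = KK N c

/-- C3: (2.3) -/
def C_epi : Prop :=
  ∀ (G H : Type) [Group G] [Group H], Group.FG G → Group.FG H → Disc G H →
    ∀ (N : Subgroup G) (M : Subgroup H), Good N → Good M →
      ∃ f : H →* G, Function.Surjective f ∧ ∀ (ι : Type) (c : ι → H), KK M c = KK N (f ∘ c)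

/-! ## D: generation -/

/-- D1: (3.1) with `q = 2`. -/
def D_isol : Prop :=
  ∀ (A : Type) [Group A], Group.FG A → Group.IsNilpotent A → ∀ B : Subgroup A,
    B ⊔ Subgroup.closure (Set.range fun x : A => x ^ 2) = ⊤ → ∀ x : A, ∃ k : ℕ, 0 < k ∧ x ^ k ∈ B

/-- D2: (3.2) -/
def D_gen : Prop :=
  ∀ (G : Type) [Group G], Group.FG G → ∀ N : Subgroup G, Good N →
    ∀ (J P : Type), Finite J → ∀ (t : J → G) (y : P → G), Gen t →
      Subgroup.closure (Set.range y) = N →
      ∀ W : Finset (FreeGroup (J ⊕ P)), (∀ w ∈ W, w ∉ KK N (Sum.elim t fun _ : P => (1 : G))) →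
        ∃ b : J ⊕ P → G, Gen b ∧ Cong N b (Sum.elim t fun _ : P => (1 : G)) ∧
          ∀ w ∈ W, FreeGroup.lift b w ≠ 1

/-! ## E: assembly -/

/-- E1: the diamond. -/
def E_diamond : Prop :=
  ∀ (G H₁ H₂ : Type) [Group G] [Group H₁] [Group H₂], Group.FG G → Group.FG H₁ → Group.FG H₂ →
    Group.IsVirtuallyNilpotent G → Group.IsVirtuallyNilpotent H₁ →
    Group.IsVirtuallyNilpotent H₂ → PrecW G H₁ → PrecW G H₂ →
    ∃ (V : Type) (_ : Group V), Group.FG V ∧ PrecW H₁ V ∧ PrecW H₂ V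

/-- E2: the theorem. -/
def Main : Prop :=
  ∀ C : Set FGGroup, IsComponent C → (∃ G ∈ C, Group.IsVirtuallyNilpotent G.carrier) →
    ∀ F : Set FGGroup, F.Finite → F ⊆ C → ∃ U ∈ C, ∀ G ∈ F, G.Prec U

end Pool.Agent.Helper106.VN
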