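import Pool.Agent.Helper106.VN.Stmts
import Pool.Agent.H53R2.FinNil
import Pool.Agent.Helper294.HallC.PcFp
import Pool.Agent.W386.Grp

/-!
Task A4 of MP_81bbc5_al: finitely generated virtually nilpotent groups are finitely presented.
-/

set_option autoImplicit false

namespace Pool.Agent.Helper106.VN

namespace TA4

theorem nil_pc (H : Type) [Group H] [Group.FG H] [Group.IsNilpotent H] :
    Helper294.HallC.PC H := ⟨(inferInstance : Group.IsSolvable H), H53R2.nil_maxC H⟩

end TA4

theorem a_vnfp : A_vnfp := by
  intro G _ hfg hvn
  obtain ⟨N, hnil, hfi⟩ := hvn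
  have hM1 : N.normalCore ≤ N := N.normalCore_le
  have hfi' : N.normalCore.FiniteIndex := inferInstance
  have hfgM : Group.FG N.normalCore := inferInstance
  have hnilM : Group.IsNilpotent N.normalCore := by
    refine Subgroup.isNilpotent_of_ker_le_center (Subgroup.inclusion hM1) ?_
    rw [(MonoidHom.ker_eq_bot_iff _).2 (Subgroup.inclusion_injective hM1)]
    exact bot_le
  have hfpM : Group.IsFinitelyPresented N.normalCore :=
    Helper294.HallC.pc_fp (TA4.nil_pc N.normalCore)
  have hfin : Finite (G ⧸ N.normalCore) := inferInstance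
  have hfpQ : Group.IsFinitelyPresented (G ⧸ N.normalCore) := inferInstance
  exact W386.fp_ext N.normalCore.subtype N.normalCore.subtype_injective
    (QuotientGroup.mk' N.normalCore) (QuotientGroup.mk'_surjective _)
    (by rw [QuotientGroup.ker_mk', Subgroup.range_subtype]) hfpM hfpQ

end Pool.Agent.Helper106.VN

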