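import Pool.Agent.Helper106.VN.Stmts

/-!
Task D2 of MP_81bbc5_al: (3.2), generating tuples which avoid finitely many words.
-/

set_option autoImplicit false

namespace Pool.Agent.Helper106.VN

namespace TD2

/-- a number of a residue class outside a finite set -/
theorem exists_residue {S : Set ℤ} (hS : S.Finite) (M : ℕ) (hM : 0 < M) :
    ∃ r : ℤ, (1 + (M : ℤ) * r) ∉ S := by
  by_contra hcon
  push Not at hcon
  have hinj : Function.Injective (fun r : ℤ => 1 + (M : ℤ) * r) := by
    intro a b h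
    have h1 : (M : ℤ) * a = M * b := add_left_cancel h
    exact mul_left_cancel₀ (by exact_mod_cast hM.ne') h1
  exact Set.infinite_of_injective_forall_mem hinj hcon hS

theorem zero_finite (hzero : C_zero) {G : Type} [Group G] (hG : Group.FG G) {N : Subgroup G}
    (hN : Good N) {ι : Type} (g u : ι → G) (hu : ∀ i, u i ∈ N) (W : Finset (FreeGroup ι)) (s₀ : ℤ)
    (hW : ∀ w ∈ W, FreeGroup.lift (fun i => g i * u i ^ s₀) w ≠ 1) :
    {s : ℤ | ∃ w ∈ W, FreeGroup.lift (fun i => g i * u i ^ s) w = 1}.Finite := by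
  have h1 : {s : ℤ | ∃ w ∈ W, FreeGroup.lift (fun i => g i * u i ^ s) w = 1} =
      ⋃ w ∈ (W : Set (FreeGroup ι)), {s : ℤ | FreeGroup.lift (fun i => g i * u i ^ s) w = 1} := by
    ext s
    simp
  rw [h1]
  apply Set.Finite.biUnion (Finset.finite_toSet W)
  intro w hw
  exact hzero G hG N hN ι g u hu w s₀ (hW w hw)

/-- the tuple and the squares generate -/
theorem gen_squares {A P : Type} [Group A] (y m : P → A) (hy : Subgroup.closure (Set.range y) = ⊤)
    (r : ℤ) : Subgroup.closure (Set.range fun p => m p * ((m p)⁻¹ * y p) ^ (1 + 2 * r)) ⊔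
      Subgroup.closure (Set.range fun x : A => x ^ 2) = ⊤ := by
  rw [eq_top_iff, ← hy, Subgroup.closure_le]
  rintro _ ⟨p, rfl⟩
  set z := ((m p)⁻¹ * y p) ^ r with hz
  have h1 : m p * ((m p)⁻¹ * y p) ^ (1 + 2 * r) = y p * z ^ 2 := by
    rw [zpow_add, zpow_one, ← mul_assoc, mul_inv_cancel_left, mul_comm 2 r, zpow_mul, ← hz]
    congr 1
    exact_mod_cast zpow_natCast z 2
  have h2 : y p = (m p * ((m p)⁻¹ * y p) ^ (1 + 2 * r)) * (z ^ 2)⁻¹ := by
    rw [h1, mul_inv_cancel_right]
  rw [SetLike.mem_coe, h2]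
  apply Subgroup.mul_mem
  · exact Subgroup.mem_sup_left (Subgroup.subset_closure ⟨p, rfl⟩)
  · exact Subgroup.mem_sup_right (Subgroup.inv_mem _ (Subgroup.subset_closure ⟨z, rfl⟩))

/-- (3.1) in the form which is used -/
theorem power_mem (hisol : D_isol) {G : Type} [Group G] (hG : Group.FG G) {N : Subgroup G}
    (hN : Good N) {P : Type} (y m : P → G) (hyN : Subgroup.closure (Set.range y) = N)
    (hm : ∀ p, m p ∈ N) (r : ℤ) (x : G) (hx : x ∈ N) :
    ∃ k : ℕ, 0 < k ∧
      x ^ k ∈ Subgroup.closure (Set.range fun p => m p * ((m p)⁻¹ * y p) ^ (1 + 2 * r)) := by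
  have := hN.finiteIndex
  have hfg : Group.FG N := Subgroup.fg_of_index_ne_zero N
  have hy : ∀ p, y p ∈ N := by
    intro p
    rw [← hyN]
    exact Subgroup.subset_closure ⟨p, rfl⟩
  let y' : P → N := fun p => ⟨y p, hy p⟩
  let m' : P → N := fun p => ⟨m p, hm p⟩
  have hmap : ∀ f : P → N, (Subgroup.closure (Set.range f)).map N.subtype =
      Subgroup.closure (Set.range fun p => ((f p : N) : G)) := by
    intro f
    rw [MonoidHom.map_closure]
    congr 1
    ext g
    simp
  have hy' : Subgroup.closure (Set.range y') = ⊤ := by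
    apply Subgroup.map_injective N.subtype_injective
    rw [hmap, ← MonoidHom.range_eq_map, Subgroup.range_subtype]
    exact hyN
  obtain ⟨k, hk, hmem⟩ := hisol N hfg hN.nil _ (gen_squares y' m' hy' r) ⟨x, hx⟩
  refine ⟨k, hk, ?_⟩
  have h1 := Subgroup.mem_map_of_mem N.subtype hmem
  rw [hmap] at h1
  exact h1

/-- a common exponent -/
theorem common_power {G J : Type} [Group G] [Finite J] (B : Subgroup G) (n : J → G)
    (h : ∀ j, ∃ k : ℕ, 0 < k ∧ n j ^ k ∈ B) : ∃ M : ℕ, 0 < M ∧ ∀ j, n j ^ M ∈ B := by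
  classical
  cases nonempty_fintype J
  choose k hk hmem using h
  refine ⟨∏ j, k j, Finset.prod_pos fun j _ => hk j, fun j => ?_⟩
  obtain ⟨q, hq⟩ := Finset.dvd_prod_of_mem k (Finset.mem_univ j)
  rw [hq, pow_mul]
  exact B.pow_mem (hmem j) q

end TD2

open TD2

theorem d_gen (hirr : C_irr) (hzero : C_zero) (hisol : D_isol) : D_gen := by
  intro G _ hG N hN J P hJ t y ht hyN W hW
  obtain ⟨b1, hb1, hb1W⟩ := hirr G hG N hN (J ⊕ P) _ W hW
  have hy : ∀ p, y p ∈ N := by
    intro p
    rw [← hyN]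
    exact Subgroup.subset_closure ⟨p, rfl⟩
  set n : J → G := fun j => (t j)⁻¹ * b1 (Sum.inl j) with hn
  set m : P → G := fun p => b1 (Sum.inr p) with hm
  have hnN : ∀ j, n j ∈ N := fun j => hb1 (Sum.inl j)
  have hmN : ∀ p, m p ∈ N := by
    intro p
    have h1 := hb1 (Sum.inr p)
    simpa using h1
  -- first family
  have hf1 := zero_finite hzero hG hN (ι := J ⊕ P) b1
    (Sum.elim (fun _ => 1) fun p => (m p)⁻¹ * y p) (by
      rintro (j | p)
      · exact N.one_mem
      · exact N.mul_mem (N.inv_mem (hmN p)) (hy p)) W 0 (by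
      intro w hw
      have h1 : (fun i : J ⊕ P => b1 i *
          (Sum.elim (fun _ => (1 : G)) (fun p => (m p)⁻¹ * y p) i) ^ (0 : ℤ)) = b1 := by
        funext i
        rw [zpow_zero, mul_one]
      rw [h1]
      exact hb1W w hw)
  obtain ⟨r, hr⟩ := exists_residue hf1 2 (by norm_num)
  set m' : P → G := fun p => m p * ((m p)⁻¹ * y p) ^ (1 + 2 * r) with hm'
  have hm'N : ∀ p, m' p ∈ N := fun p =>
    N.mul_mem (hmN p) (N.zpow_mem (N.mul_mem (N.inv_mem (hmN p)) (hy p)) _)
  set b2 : J ⊕ P → G := Sum.elim (fun j => b1 (Sum.inl j)) m' with hb2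
  have hb2W : ∀ w ∈ W, FreeGroup.lift b2 w ≠ 1 := by
    intro w hw h1
    apply hr
    refine ⟨w, hw, ?_⟩
    have h2 : (fun i : J ⊕ P => b1 i *
        (Sum.elim (fun _ => (1 : G)) (fun p => (m p)⁻¹ * y p) i) ^ (1 + ((2 : ℕ) : ℤ) * r)) =
        b2 := by
      funext i
      rcases i with j | p
      · simp [hb2]
      · simp [hb2, hm', hm]
    rw [h2]
    exact h1
  -- a common exponent
  obtain ⟨M, hM, hMn⟩ := common_power (Subgroup.closure (Set.range m')) n
    (fun j => power_mem hisol hG hN y m hyN hmN r (n j) (hnN j))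
  -- second family
  have hf2 := zero_finite hzero hG hN (ι := J ⊕ P) b2
    (Sum.elim (fun j => (n j)⁻¹) fun _ => 1) (by
      rintro (j | p)
      · exact N.inv_mem (hnN j)
      · exact N.one_mem) W 0 (by
      intro w hw
      have h1 : (fun i : J ⊕ P => b2 i *
          (Sum.elim (fun j => (n j)⁻¹) (fun _ => (1 : G)) i) ^ (0 : ℤ)) = b2 := by
        funext i
        rw [zpow_zero, mul_one]
      rw [h1]
      exact hb2W w hw)
  obtain ⟨q, hq⟩ := exists_residue hf2 M hM
  refine ⟨fun i => b2 i * (Sum.elim (fun j => (n j)⁻¹) (fun _ => (1 : G)) i) ^ (1 + (M : ℤ) * q),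
    ?_, ?_, ?_⟩
  · -- it generates
    unfold Gen
    rw [eq_top_iff]
    have hgt : Subgroup.closure (Set.range t) = ⊤ := ht
    rw [← hgt, Subgroup.closure_le]
    rintro _ ⟨j, rfl⟩
    set D := Subgroup.closure (Set.range fun i : J ⊕ P => b2 i *
      (Sum.elim (fun j => (n j)⁻¹) (fun _ => (1 : G)) i) ^ (1 + (M : ℤ) * q)) with hD
    have hBD : Subgroup.closure (Set.range m') ≤ D := by
      rw [Subgroup.closure_le]
      rintro _ ⟨p, rfl⟩
      apply Subgroup.subset_closure
      exact ⟨Sum.inr p, by simp [hb2]⟩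
    have h1 : t j * (n j ^ M) ^ (-q) ∈ D := by
      apply Subgroup.subset_closure
      refine ⟨Sum.inl j, ?_⟩
      simp only [hb2, Sum.elim_inl]
      have h2 : b1 (Sum.inl j) = t j * n j := by
        rw [hn]
        simp only
        rw [mul_inv_cancel_left]
      rw [h2, zpow_add, zpow_one, ← mul_assoc, mul_inv_cancel_right, inv_zpow', zpow_neg, zpow_neg,
        zpow_mul, zpow_natCast]
    have h2 : (n j ^ M) ^ (-q) ∈ D := D.zpow_mem (hBD (hMn j)) _
    have h3 : t j = (t j * (n j ^ M) ^ (-q)) * ((n j ^ M) ^ (-q))⁻¹ := by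
      rw [mul_inv_cancel_right]
    rw [SetLike.mem_coe, h3]
    exact D.mul_mem h1 (D.inv_mem h2)
  · rintro (j | p)
    · simp only [hb2, Sum.elim_inl]
      rw [← mul_assoc]
      exact N.mul_mem (hnN j) (N.zpow_mem (N.inv_mem (hnN j)) _)
    · simp only [hb2, Sum.elim_inr, one_zpow, mul_one, inv_one, one_mul]
      exact hm'N p
  · intro w hw h1
    exact hq ⟨w, hw, h1⟩

end Pool.Agent.Helper106.VN
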